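import Mathlib
import Pool.Agent.Helper11.Dt.Defs

/-!
# DT-10: mixed contractions (project DET, MP_5f0950_ag)
-/

open Finset

namespace Pool.Agent.Helper11.Dt

open Pool.Agent.Helper10.GIT Pool.Agent.Helper11.GIT Pool.Agent.Helper11.Can

variable {P : ℕ} {d : Fin P → ℕ} {K : Type*} [Field K]

/-- the shapes of a family of tensors and of `m` copies of a tensor -/
abbrev sumShape {I : Type} (χ : I → Shape P) (m : ℕ) (χ' : Shape P) : I ⊕ Fin m → Shape P :=
  Sum.elim χ fun _ => χ'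

/-- the tensors `z r`, and tensors `y j` -/
def sumTen {I : Type} {χ : I → Shape P} {m : ℕ} {χ' : Shape P} (z : ∀ r, Ten d K (χ r))
    (y : Fin m → Ten d K χ') : ∀ r, Ten d K (sumShape χ m χ' r)
  | .inl r => z r
  | .inr j => y j

/-- Reindexing of a contraction along an equivalence. -/
private lemma dt10_reindex {I I' : Type} [Fintype I] [Fintype I'] (B : Mats d K)
    {χ : I → Shape P} {S : Type} [Fintype S] (cl : S → Fin P) (σ : S × Fin 2 ≃ Pos χ)
    (z : ∀ r, Ten d K (χ r)) (f : I' ≃ I) :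
    pform B cl (σ.trans (Equiv.sigmaCongrLeft (β := fun r => Fin (χ r).1) f).symm)
      (χ := fun r => χ (f r)) (fun r => z (f r)) = pform B cl σ z := by
  classical
  unfold pform
  refine (Fintype.sum_equiv (Equiv.piCongrLeft (fun r => Word d (χ r)) f).symm _ _ ?_).symm
  intro W
  congr 1
  · refine prod_congr rfl fun x _ => ?_
    have key : ∀ q : Pos χ, ltp W q =
        ltp (χ := fun r => χ (f r)) ((Equiv.piCongrLeft (fun r => Word d (χ r)) f).symm W)
          ((Equiv.sigmaCongrLeft (β := fun r => Fin (χ r).1) f).symm q) := by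
      intro q
      obtain ⟨q', rfl⟩ := (Equiv.sigmaCongrLeft (β := fun r => Fin (χ r).1) f).surjective q
      rw [Equiv.symm_apply_apply]
      rfl
    rw [key, key]
    rfl
  · exact (Equiv.prod_comp f fun r => z r (W r)).symm

/-- Reindexing of a contraction, for bundled tensors. -/
private lemma dt10_bundled {I I' : Type} [Fintype I] [Fintype I'] (B : Mats d K)
    {χ : I → Shape P} {χ₂ : I' → Shape P} {S : Type} [Fintype S] (cl : S → Fin P)
    (σ : S × Fin 2 ≃ Pos χ) (z : ∀ r, Ten d K (χ r)) (z₂ : ∀ r, Ten d K (χ₂ r)) (f : I' ≃ I)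
    (h : ∀ r, (⟨χ₂ r, z₂ r⟩ : Σ χ : Shape P, Ten d K χ) = ⟨χ (f r), z (f r)⟩) :
    ∃ σ' : S × Fin 2 ≃ Pos χ₂, pform B cl σ' z₂ = pform B cl σ z := by
  have hχ : χ₂ = fun r => χ (f r) := funext fun r => (Sigma.mk.inj_iff.mp (h r)).1
  subst hχ
  have hz : z₂ = fun r => z (f r) := funext fun r => eq_of_heq (Sigma.mk.inj_iff.mp (h r)).2
  subst hz
  exact ⟨_, dt10_reindex B cl σ z f⟩

/-- A mixed contraction is the contraction of a family of tensors of `A` and of `m` copies of `η`.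

Proof: choose an equivalence `f : {r // t r ≠ 2} ⊕ Fin m ≃ I` which maps `Fin m` onto the `r` with
`t r = 2`, and reindex. To avoid transports, bundle: write `Z r = ⟨χ r, z r⟩` and show that for
families `Z : I → Σ χ, Ten d K χ`, `Z' : I' → Σ χ, Ten d K χ` and `f : I' ≃ I` with `Z ∘ f = Z'`
and `σ : S × Fin 2 ≃ Pos fun r => (Z r).1` there is a `σ'` such that the `pform`s agree (`subst`,
then `Equiv.sigmaCongrLeft'`-like reindexing of `Pos`, `Equiv.piCongrLeft'` for the words). -/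
theorem exists_sorted {A N : Family d K} (hNA : ∀ χ, N χ ⊆ A χ) {χ' : Shape P} (η : Ten d K χ')
    (B : Mats d K) {I : Type} [Fintype I] {χ : I → Shape P} {S : Type} [Fintype S]
    (cl : S → Fin P) (σ : S × Fin 2 ≃ Pos χ) (z : ∀ r, Ten d K (χ r)) (t : I → Fin 3)
    (hzt : Mixed A N ⟨χ', η⟩ z t) :
    ∃ (I' : Type) (_ : Fintype I') (χ₁ : I' → Shape P) (J : Finset I')
      (σ' : S × Fin 2 ≃ Pos (sumShape χ₁ #{r | t r = 2} χ')) (z₁ : ∀ r, Ten d K (χ₁ r)),
      (∀ r, z₁ r ∈ A (χ₁ r)) ∧ (∀ r ∈ J, z₁ r ∈ N (χ₁ r)) ∧ #J = #{r | t r = 1} ∧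
      pform B cl σ' (sumTen z₁ fun _ => η) = pform B cl σ z := by
  classical
  have hcard : Fintype.card {r // t r = 2} = #{r | t r = 2} := Fintype.card_subtype _
  let e : {r // t r = 2} ≃ Fin #{r | t r = 2} := Fintype.equivFinOfCardEq hcard
  let f : {r // ¬ t r = 2} ⊕ Fin #{r | t r = 2} ≃ I :=
    ((Equiv.sumCongr (Equiv.refl _) e.symm).trans (Equiv.sumComm _ _)).trans
      (Equiv.sumCompl fun r => t r = 2)
  obtain ⟨σ', hσ'⟩ := dt10_bundled B cl σ z
    (χ₂ := sumShape (fun r : {r // ¬ t r = 2} => χ r.1) #{r | t r = 2} χ')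
    (sumTen (fun r : {r // ¬ t r = 2} => z r.1) fun _ => η) f (by
      rintro (r | j)
      · rfl
      · exact ((hzt (e.symm j).1).2.2 (e.symm j).2).symm)
  refine ⟨{r // ¬ t r = 2}, inferInstance, fun r => χ r.1,
    Finset.univ.filter fun r => t r.1 = 1, σ', fun r => z r.1, ?_, ?_, ?_, hσ'⟩
  · rintro ⟨r, hr⟩
    have h3 : t r = 0 ∨ t r = 1 := by omega
    rcases h3 with h | h
    · exact (hzt r).1 h
    · exact hNA _ ((hzt r).2.1 h)
  · rintro ⟨r, hr⟩ hJ
    exact (hzt r).2.1 (Finset.mem_filter.mp hJ).2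
  · refine Finset.card_bij (fun r _ => r.1) ?_ ?_ ?_
    · intro r hr
      exact Finset.mem_filter.mpr ⟨Finset.mem_univ _, (Finset.mem_filter.mp hr).2⟩
    · intro a _ b _ h
      exact Subtype.ext h
    · intro r hr
      have h1 : t r = 1 := (Finset.mem_filter.mp hr).2
      exact ⟨⟨r, by omega⟩, Finset.mem_filter.mpr ⟨Finset.mem_univ _, h1⟩, rfl⟩

end Pool.Agent.Helper11.Dt
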