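import Mathlib
import Pool.Agent.Helper11.Dt.St.T13

/-!
# DT-14: contractions of tensors given by algebraic classes (project DET, MP_5f0950_ag)
-/

set_option linter.unusedSectionVars false

universe u v w t

open CategoryTheory Finset

namespace Pool.Agent.Helper11.Dt

open Pool.Agent.Helper10 hiding IsAlgAut parityPart
open SmProjVar SPre Pool.Agent.Helper10.GIT Pool.Agent.Helper11.Iso Pool.Agent.Helper11.Can
open Pool.Agent.Helper11.Obs (IsNumTrivial)

variable {k : Type u} [Field k] {K : Type v} [Field K] [CharZero K]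
  (W : WeilCohomology.{u, v, w} k K) {P : ℕ} {d : Fin P → ℕ} {V : Fin P → SmProjVar k}

/-- DT-13 for a Weil cohomology: apply it to `W.toSPre K`, whose cohomology is `K ⊗ H`, to the
classes `Obs.one W K (ρ r)` and `Obs.one W K (x r)`, and translate by `C8.ctens_one` (with
`Ω = K`), `eq_one`, `isNumTrivial_iff`, `Obs.tr_one_mul`, `Obs.one_mul`, `Obs.pull_one`,
`C8.prod_ofFn_one`, `Obs.one_ev`, `Obs.one_od`, `Obs.one_mem_alg`. -/
theorem pform_kten_eq (e : ∀ c, Fin (d c) → W.H (V c)) {B : Mats d K}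
    (he : ∀ c, Piece (W.toSPre K) (V c) (d c) (fun b => Obs.one W K (e c b)) (B c))
    {I : Type} [Fintype I] {χ : I → Shape P} {J : Type} [Fintype J] (cl : J → Fin P)
    (σ : J × Fin 2 ≃ Pos χ) {s : ℕ} (ε : Fin (s + 1) ≃ I) (T X : I → SmProjVar k)
    (p : ∀ r, (T r).toOver ⟶ (X r).toOver)
    (f : ∀ r, ∀ i : Fin (χ r).1, (T r).toOver ⟶ (V ((χ r).2 i)).toOver)
    (ρ : ∀ r, W.H (T r)) (hρ : ∀ r, ρ r ∈ W.algClasses (T r)) (r₀ : I)
    (hr₀ : IsNumTrivial W.toCohomologyData (T r₀) (ρ r₀)) (qx : I → Bool) :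
    ∃ (T' : SmProjVar k) (π : ∀ r, T'.toOver ⟶ (T r).toOver) (ζ : W.H T') (c : K),
      IsNumTrivial W.toCohomologyData T' ζ ∧ ∀ x : ∀ r, W.H (X r),
        (∀ r, if qx r then x r ∈ W.odK (X r) else x r ∈ W.evK (X r)) →
        pform B cl σ (fun r => kten W e (p r) (f r) (ρ r) (x r)) =
          c * W.tr T' (ζ * (List.ofFn fun j => W.pull (π (ε j) ≫ p (ε j)) (x (ε j))).prod) := by
  obtain ⟨T', π, z, c, hz, h⟩ := pform_eq_tr (S := W.toSPre K)
    (e := fun c b => Obs.one W K (e c b)) he cl σ ε T X p f (fun r => Obs.one W K (ρ r))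
    (fun r => Obs.one_mem_alg W K (hρ r)) r₀ ((isNumTrivial_iff W).mp hr₀) qx
  obtain ⟨ζ, rfl⟩ := eq_one W T' z
  refine ⟨T', π, ζ, (c : K), (isNumTrivial_iff W).mpr hz, fun x hx => ?_⟩
  have h1 := h (fun r => Obs.one W K (x r)) fun r => by
    have h2 := hx r
    by_cases hq : qx r = true
    · rw [if_pos hq] at h2 ⊢
      exact Obs.one_od W K h2
    · rw [if_neg hq] at h2 ⊢
      exact Obs.one_ev W K h2
  have h3 : (fun r => ctens (W.toSPre K) (fun c b => Obs.one W K (e c b)) (p r) (f r)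
      (Obs.one W K (ρ r)) (Obs.one W K (x r))) = fun r => kten W e (p r) (f r) (ρ r) (x r) := by
    funext r
    exact C8.ctens_one W e K (p r) (f r) (ρ r) (x r)
  rw [h3] at h1
  rw [h1]
  have h4 : (List.ofFn fun j => (W.toSPre K).pull (π (ε j) ≫ p (ε j))
      (Obs.one W K (x (ε j)))).prod =
      Obs.one W K (List.ofFn fun j => W.pull (π (ε j) ≫ p (ε j)) (x (ε j))).prod := by
    rw [← C8.prod_ofFn_one]
    simp only [Obs.pull_one]
  rw [h4, Obs.tr_one_mul, zsmul_eq_mul]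
  rfl

end Pool.Agent.Helper11.Dt
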