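import Mathlib
import Pool.Agent.Helper11.CanThm

/-!
# DT-15: products of pairings as tensors given by an external product (project DET, MP_5f0950_ag)
-/

set_option linter.unusedSectionVars false

universe u v w t

open CategoryTheory Finset

namespace Pool.Agent.Helper11.Dt

open Pool.Agent.Helper10 hiding IsAlgAut parityPart
open SmProjVar SPre Pool.Agent.Helper10.GIT Pool.Agent.Helper11.Iso Pool.Agent.Helper11.Can
open Pool.Agent.Helper11.Obs (IsPiece extProd prodVar prodFst prodProj)

variable {k : Type u} [Field k] {K : Type v} [Field K] [CharZero K]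
  (W : WeilCohomology.{u, v, w} k K) {P : ℕ} {d : Fin P → ℕ} {V : Fin P → SmProjVar k}

/-- products of external products of classes which belong to homogeneous families: the sign and
the parity do not depend on the members of the families -/
private theorem dt15_ext_mul {A : SmProjVar k} {b : ℕ} : ∀ {V : Fin b → SmProjVar k}
    {ι : Fin b → Type w} (e : ∀ i, ι i → W.H (V i))
    (_ : ∀ i, (∀ j, e i j ∈ W.evK (V i)) ∨ ∀ j, e i j ∈ W.odK (V i))
    (x' : W.H A) (_ : x' ∈ W.evK A ∨ x' ∈ W.odK A),
    ∃ c : K, c * c = 1 ∧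
      ((∀ w' : (∀ i, ι i), Obs.extProd W.toCohomologyData x' (fun i => e i (w' i)) ∈
          W.evK (Obs.prodVar A V)) ∨
        ∀ w' : (∀ i, ι i), Obs.extProd W.toCohomologyData x' (fun i => e i (w' i)) ∈
          W.odK (Obs.prodVar A V)) ∧
      ∀ (x : W.H A) (w w' : (∀ i, ι i)),
        Obs.extProd W.toCohomologyData x (fun i => e i (w i)) *
          Obs.extProd W.toCohomologyData x' (fun i => e i (w' i)) =
        c • Obs.extProd W.toCohomologyData (x * x') (fun i => e i (w i) * e i (w' i)) := by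
  induction b with
  | zero =>
    intro V ι e _ x' hx'
    refine ⟨1, by ring, ?_, fun x w w' => ?_⟩
    · rcases hx' with h | h
      · left
        intro w'
        rw [C11.extProd_zero]
        exact h
      · right
        intro w'
        rw [C11.extProd_zero]
        exact h
    · rw [C11.extProd_zero, C11.extProd_zero, C11.extProd_zero]
      exact (one_smul K (x * x' : W.H A)).symm
  | succ b ih =>
    intro V ι e he x' hx'
    obtain ⟨c, hc, hp, hm⟩ := ih (V := fun i => V i.castSucc) (ι := fun i => ι i.castSucc)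
      (fun i => e i.castSucc) (fun i => he i.castSucc) x' hx'
    set T0 := Obs.prodVar A (fun i => V i.castSucc) with hT0
    have hu : (∀ j, W.pull (snd T0 (V (Fin.last _))) (e (Fin.last _) j) ∈
        W.evK (T0.prod (V (Fin.last _)))) ∨
        ∀ j, W.pull (snd T0 (V (Fin.last _))) (e (Fin.last _) j) ∈
        W.odK (T0.prod (V (Fin.last _))) := by
      rcases he (Fin.last _) with h | h
      · exact .inl fun j => W.pull_evK _ _ (h j)
      · exact .inr fun j => W.pull_odK _ _ (h j)
    have ha : (∀ w' : (∀ i : Fin b, ι i.castSucc), W.pull (fst T0 (V (Fin.last _)))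
        (Obs.extProd W.toCohomologyData x' (fun i => e i.castSucc (w' i))) ∈
        W.evK (T0.prod (V (Fin.last _)))) ∨
        ∀ w' : (∀ i : Fin b, ι i.castSucc), W.pull (fst T0 (V (Fin.last _)))
        (Obs.extProd W.toCohomologyData x' (fun i => e i.castSucc (w' i))) ∈
        W.odK (T0.prod (V (Fin.last _))) := by
      rcases hp with h | h
      · exact .inl fun j => W.pull_evK _ _ (h j)
      · exact .inr fun j => W.pull_odK _ _ (h j)
    obtain ⟨ε, hε, hs⟩ := C11.swap_sign W _ _ hu ha
    refine ⟨ε * c, ?_, ?_, fun x w w' => ?_⟩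
    · calc ε * c * (ε * c) = (ε * ε) * (c * c) := by ring
        _ = 1 := by rw [hε, hc, one_mul]
    · rcases C11.parity_mul W _ _ hu ha with h | h
      · left
        intro w'
        rw [C11.extProd_succ]
        exact h (w' (Fin.last _)) (fun i => w' i.castSucc)
      · right
        intro w'
        rw [C11.extProd_succ]
        exact h (w' (Fin.last _)) (fun i => w' i.castSucc)
    · rw [C11.extProd_succ, C11.extProd_succ, C11.extProd_succ]
      have h1 := hm x (fun i => w i.castSucc) (fun i => w' i.castSucc)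
      have h2 := hs (w (Fin.last _)) (fun i => w' i.castSucc)
      show ((_ : W.H (T0.prod (V (Fin.last _)))) * _) * (_ * _) = _ • (_ * _)
      rw [mul_assoc, ← mul_assoc (W.pull (snd T0 (V (Fin.last _))) _), h2]
      rw [smul_mul_assoc, mul_smul_comm, ← W.pullA_apply, ← W.pullA_apply, ← W.pullA_apply,
        ← W.pullA_apply, mul_assoc, ← mul_assoc (W.pullA (fst T0 (V (Fin.last _))) _), ← map_mul,
        ← map_mul, h1, map_smul, smul_mul_assoc, smul_smul]
      rfl

/-- The tensor `w ↦ ∏ i, ⟨v i, e (w i)⟩` is, up to a constant, the one given by the class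
`x₀ × v 0 × …` on `X × V (χ 0) × …`, where `tr x₀ = 1`; the constant and the parity of this class
do not depend on the `v i` in the pieces `E c`.

Proof: `x₀` is the class with `tr x₀ = 1` (see `gram_mem` in CanThm.lean; it has degree
`2 dim X`, so it is even, see `(W.trace X)`, `parityPart_le_evK` or the definition of `trace`).
`kten … w = tr (extProd x₀ v * extProd 1 (fun i => e (w i)))`, and
`extProd x v * extProd x' v' = c • extProd (x * x') (fun i => v i * v' i)` with `c = ± 1` by the
proof of `C11.ext_mul` (Pool/Agent/Helper41/CAN/C11.lean), for families `e : ∀ i, ι i → H (V i)`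
with arbitrary index types `ι i` (here: the subspace `E (χ.2 i)`), each of pure parity
(`(hE c).parity`, `Obs.parityPart_le_evK`, `Obs.parityPart_le_odK`, as in the proof of
`exists_kpiece`); then `tr_extProd`. If the constant for the signs is `c` then `ε = c` (or
`c⁻¹ = c`). -/
theorem exists_eta_slot (X : SmProjVar k) {E : ∀ c, Submodule K (W.H (V c))}
    (hE : ∀ c, IsPiece W.toCohomologyData (V c) (E c)) (e : ∀ c, Fin (d c) → W.H (V c))
    (heE : ∀ c b, e c b ∈ E c) (χ : Shape P) :
    ∃ (x₀ : W.H X) (ε : K) (q : Bool), x₀ ∈ W.evK X ∧ ∀ v : ∀ i : Fin χ.1, W.H (V (χ.2 i)),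
      (∀ i, v i ∈ E (χ.2 i)) →
      (if q then extProd W.toCohomologyData x₀ v ∈ W.odK (prodVar X fun i => V (χ.2 i))
        else extProd W.toCohomologyData x₀ v ∈ W.evK (prodVar X fun i => V (χ.2 i))) ∧
      ∀ w : Word d χ, ∏ i, W.pairing (V (χ.2 i)) (v i) (e (χ.2 i) (w i)) =
        ε * kten W e (𝟙 (prodVar X fun i => V (χ.2 i)).toOver)
          (prodProj X fun i => V (χ.2 i)) 1 (extProd W.toCohomologyData x₀ v) w := by
  obtain ⟨x₀, ⟨hx₀, htr⟩, -⟩ := (W.trace X).bijective 1
  have hev : x₀ ∈ W.evK X := W.gr_le_evK X (even_two_mul _) hx₀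
  have h1ev : (1 : W.H X) ∈ W.evK X := W.gr_le_evK X Even.zero (W.graded X).one_mem
  have hpar : ∀ i : Fin χ.1, (∀ j : E (χ.2 i), (j : W.H (V (χ.2 i))) ∈ W.evK (V (χ.2 i))) ∨
      ∀ j : E (χ.2 i), (j : W.H (V (χ.2 i))) ∈ W.odK (V (χ.2 i)) := by
    intro i
    obtain ⟨p, hp⟩ := (hE (χ.2 i)).parity
    by_cases hp2 : Even p
    · exact .inl fun j => Obs.parityPart_le_evK W hp2 (hp j.2)
    · exact .inr fun j => Obs.parityPart_le_odK W hp2 (hp j.2)
  obtain ⟨-, -, hq, -⟩ := dt15_ext_mul W (A := X) (V := fun i => V (χ.2 i))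
    (ι := fun i => E (χ.2 i)) (fun i j => (j : W.H (V (χ.2 i)))) hpar x₀ (.inl hev)
  obtain ⟨c, hc, -, hm⟩ := dt15_ext_mul W (A := X) (V := fun i => V (χ.2 i))
    (ι := fun i => E (χ.2 i)) (fun i j => (j : W.H (V (χ.2 i)))) hpar 1 (.inl h1ev)
  have key : ∀ v : ∀ i : Fin χ.1, W.H (V (χ.2 i)), (∀ i, v i ∈ E (χ.2 i)) →
      ∀ w : Word d χ, ∏ i, W.pairing (V (χ.2 i)) (v i) (e (χ.2 i) (w i)) =
        c * kten W e (𝟙 (prodVar X fun i => V (χ.2 i)).toOver)
          (prodProj X fun i => V (χ.2 i)) 1 (extProd W.toCohomologyData x₀ v) w := by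
    intro v hv w
    have h1 := hm x₀ (fun i => ⟨v i, hv i⟩) (fun i => ⟨e (χ.2 i) (w i), heE _ _⟩)
    have h2 : extProd W.toCohomologyData (A := X) (V := fun i => V (χ.2 i)) 1
        (fun i => e (χ.2 i) (w i)) = kwd W e (prodProj X fun i => V (χ.2 i)) w := by
      have h3 : W.pull (prodFst X fun i => V (χ.2 i)) (1 : W.H X) = 1 := by
        rw [← W.pullA_apply, map_one]
      unfold Obs.extProd Obs.wordClass kwd
      rw [h3, one_mul]
    have h4 : kten W e (𝟙 (prodVar X fun i => V (χ.2 i)).toOver)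
        (prodProj X fun i => V (χ.2 i)) 1 (extProd W.toCohomologyData x₀ v) w =
        c * ∏ i, W.pairing (V (χ.2 i)) (v i) (e (χ.2 i) (w i)) := by
      unfold kten
      rw [W.pull_id, one_mul, ← h2]
      refine (congrArg (W.tr _) h1).trans ?_
      rw [← W.trL_apply, map_smul, W.trL_apply, tr_extProd, mul_one, htr, one_mul, smul_eq_mul]
      rfl
    rw [h4, ← mul_assoc, hc, one_mul]
  rcases hq with hq | hq
  · refine ⟨x₀, c, false, hev, fun v hv => ⟨?_, key v hv⟩⟩
    simpa using hq fun i => ⟨v i, hv i⟩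
  · refine ⟨x₀, c, true, hev, fun v hv => ⟨?_, key v hv⟩⟩
    simpa using hq fun i => ⟨v i, hv i⟩

end Pool.Agent.Helper11.Dt
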