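import Mathlib
import Pool.Agent.Helper11.CanThm

/-!
# DT-16: products of pull-backs (project DET, MP_5f0950_ag)
-/

set_option linter.unusedSectionVars false

universe u v w t

open CategoryTheory Finset

namespace Pool.Agent.Helper11.Dt

open Pool.Agent.Helper10 hiding IsAlgAut parityPart
open SmProjVar SPre Pool.Agent.Helper10.GIT Pool.Agent.Helper11.Iso Pool.Agent.Helper11.Can
open Pool.Agent.Helper11.Obs (IsPiece IsNumTrivial extProd wordClass prodVar prodFst prodProj
  power)

variable {k : Type u} [Field k] {K : Type v} [Field K] [CharZero K]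
  (W : WeilCohomology.{u, v, w} k K)

/-- a product of pull-backs of classes on varieties `A r` is the pull-back of a class on a product
(induction, `lift`, `W.pull_comp`; see `exists_prodT` in Pool/Agent/Helper85/CAN/C1.lean) -/
theorem exists_prod_pull {𝒳 : SmProjVar k → Prop} (h𝒳 : ∀ X Y, 𝒳 X → 𝒳 Y → 𝒳 (X.prod Y))
    {T : SmProjVar k} {s : ℕ} (A : Fin (s + 1) → SmProjVar k) (hA : ∀ r, 𝒳 (A r))
    (p : ∀ r, T.toOver ⟶ (A r).toOver) (x : ∀ r, W.H (A r)) :
    ∃ (A' : SmProjVar k) (q : T.toOver ⟶ A'.toOver) (x' : W.H A'), 𝒳 A' ∧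
      (List.ofFn fun r => W.pull (p r) (x r)).prod = W.pull q x' := by
  induction s with
  | zero =>
    refine ⟨A 0, p 0, x 0, hA 0, ?_⟩
    rw [List.ofFn_succ, List.ofFn_zero, List.prod_cons, List.prod_nil, mul_one]
  | succ s ih =>
    obtain ⟨A₀, q₀, x₀, hA₀, h₀⟩ := ih (fun i => A i.castSucc) (fun i => hA _)
      (fun i => p i.castSucc) (fun i => x i.castSucc)
    refine ⟨A₀.prod (A (Fin.last (s + 1))), lift q₀ (p (Fin.last (s + 1))),
      W.pull (fst _ _) x₀ * W.pull (snd _ _) (x (Fin.last (s + 1))), h𝒳 _ _ hA₀ (hA _), ?_⟩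
    rw [(W.pull_hom (lift q₀ (p (Fin.last (s + 1))))).map_mul, ← W.pull_comp, ← W.pull_comp,
      lift_fst, lift_snd, List.ofFn_succ', List.concat_eq_append, List.prod_append,
      List.prod_singleton, h₀]

end Pool.Agent.Helper11.Dt
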