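import Mathlib
import Pool.Agent.Helper11.CanThm

/-!
# DT-17: push-forward of a numerically trivial class to a product (project DET, MP_5f0950_ag)
-/

set_option linter.unusedSectionVars false

universe u v w t

open CategoryTheory Finset

namespace Pool.Agent.Helper11.Dt

open Pool.Agent.Helper10 hiding IsAlgAut parityPart
open SmProjVar SPre Pool.Agent.Helper10.GIT Pool.Agent.Helper11.Iso Pool.Agent.Helper11.Can
open Pool.Agent.Helper11.Obs (IsPiece IsNumTrivial extProd wordClass prodVar prodFst prodProj
  power)

variable {k : Type u} [Field k] {K : Type v} [Field K] [CharZero K]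
  (W : WeilCohomology.{u, v, w} k K)

private lemma dt17_exists_lift {A T : SmProjVar k} (p : T.toOver ⟶ A.toOver) :
    ∀ {b : ℕ} {V : Fin b → SmProjVar k} (f : ∀ i, T.toOver ⟶ (V i).toOver),
    ∃ g : T.toOver ⟶ (prodVar A V).toOver, g ≫ prodFst A V = p ∧
      ∀ i, g ≫ prodProj A V i = f i := by
  intro b
  induction b with
  | zero =>
    intro V f
    exact ⟨p, Category.comp_id p, fun i => i.elim0⟩
  | succ b ih =>
    intro V f
    obtain ⟨g, hg1, hg2⟩ := ih (V := fun i => V i.castSucc) fun i => f i.castSucc
    refine ⟨SmProjVar.lift g (f (Fin.last _)), ?_, ?_⟩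
    · have h1 : SmProjVar.lift g (f (Fin.last _)) ≫
          (SmProjVar.fst (prodVar A fun i => V i.castSucc) (V (Fin.last _)) ≫
            prodFst A fun i => V i.castSucc) = p := by
        rw [← Category.assoc, SmProjVar.lift_fst, hg1]
      exact h1
    · intro i
      refine Fin.lastCases ?_ (fun i => ?_) i
      · rw [C11.prodProj_last]
        exact SmProjVar.lift_snd _ _
      · rw [C11.prodProj_castSucc]
        have h1 : SmProjVar.lift g (f (Fin.last _)) ≫
            (SmProjVar.fst (prodVar A fun i => V i.castSucc) (V (Fin.last _)) ≫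
              prodProj A (fun i => V i.castSucc) i) = f i.castSucc := by
          rw [← Category.assoc, SmProjVar.lift_fst, hg2]
        exact h1

/-- The pairing of a numerically trivial class `ζ` on `T` with words on `T` is the pairing of a
numerically trivial class on `A × V 0 × …` with external products.

Proof: let `g : T → prodVar A V` be the morphism with `g ≫ prodFst = p` and `g ≫ prodProj i = f i`
(induction on `b`, `lift`), so that `wordClass p f x v = W.pull g (extProd x v)`
(`C11.wordClass_comp`), and let `Z` be the push-forward of `ζ` along `g`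
(use `W.toSPre K`, its `pushF`, `S.tr_pushF`, `pushF_rad` as at the end of the proof of
`C4.hom_case`, and translate by `eq_one`, `isNumTrivial_iff`, `Obs.tr_one_mul`, `Obs.pull_one`). -/
theorem exists_push {A T : SmProjVar k} {b : ℕ} {V : Fin b → SmProjVar k}
    (p : T.toOver ⟶ A.toOver) (f : ∀ i, T.toOver ⟶ (V i).toOver) {ζ : W.H T}
    (hζ : IsNumTrivial W.toCohomologyData T ζ) :
    ∃ Z : W.H (prodVar A V), IsNumTrivial W.toCohomologyData (prodVar A V) Z ∧
      ∀ (x : W.H A) (v : ∀ i, W.H (V i)),
        W.tr T (ζ * wordClass W.toCohomologyData p f x v) =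
          W.pairing (prodVar A V) Z (extProd W.toCohomologyData x v) := by
  obtain ⟨g, hg1, hg2⟩ := dt17_exists_lift p f
  have hrad : (W.toSPre K).rad T (Obs.one W K ζ) := (isNumTrivial_iff W).mp hζ
  have hrad' := SPre.pushF_rad g hrad
  obtain ⟨Z, hZ⟩ := eq_one W (prodVar A V) ((W.toSPre K).pushF g (Obs.one W K ζ))
  refine ⟨Z, (isNumTrivial_iff W).mpr (by rw [← hZ]; exact hrad'), fun x v => ?_⟩
  have hw : wordClass W.toCohomologyData p f x v =
      W.pull g (extProd W.toCohomologyData x v) := by
    have h1 := C11.wordClass_comp W g (prodFst A V) (prodProj A V) x v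
    rw [hg1, funext hg2] at h1
    exact h1
  have h2 := (W.toSPre K).tr_pushF g (Obs.one W K ζ)
    (Obs.one W K (extProd W.toCohomologyData x v))
  rw [hZ, Obs.pull_one, Obs.tr_one_mul, Obs.tr_one_mul] at h2
  have h3 : W.pairing (prodVar A V) Z (extProd W.toCohomologyData x v) =
      W.pairing T ζ (W.pull g (extProd W.toCohomologyData x v)) :=
    (algebraMap K K).injective h2
  rw [h3, hw]
  rfl

end Pool.Agent.Helper11.Dt
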