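import Mathlib
import Pool.Agent.Helper11.CanThm

/-!
# DT-18: reordering words (project DET, MP_5f0950_ag)
-/

set_option linter.unusedSectionVars false

universe u v w t

open CategoryTheory Finset

namespace Pool.Agent.Helper11.Dt

open Pool.Agent.Helper10 hiding IsAlgAut parityPart
open SmProjVar SPre Pool.Agent.Helper10.GIT Pool.Agent.Helper11.Iso Pool.Agent.Helper11.Can
open Pool.Agent.Helper11.Obs (IsPiece IsNumTrivial extProd wordClass prodVar prodFst prodProj
  power)

/-- the two enumerations of `Q` are permutations of each other -/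
private lemma dt18_perm {Q : Type} [Fintype Q] {b m N : ℕ} (e' : Q ≃ Fin b)
    (φ : Fin m × Fin N ≃ Q) :
    (List.ofFn fun j : Fin m => List.ofFn fun i : Fin N => φ (j, i)).flatten.Perm
      (List.ofFn fun k : Fin b => e'.symm k) := by
  classical
  rw [List.perm_iff_count]
  intro a
  rw [count_ofFn_flatten, count_ofFn, sum_congr rfl fun j _ => count_ofFn _ a,
    ← Fintype.sum_prod_type' (f := fun (j : Fin m) (i : Fin N) => if φ (j, i) = a then 1 else 0),
    φ.sum_comp (fun q => if q = a then 1 else 0),
    e'.symm.sum_comp (fun q => if q = a then 1 else 0)]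

variable {k : Type u} [Field k] {K : Type v} [Field K] [CharZero K]
  (W : WeilCohomology.{u, v, w} k K)

/-- Reordering a product of classes of pure parities: the words `u (φ (j, i))`, for `j < m`,
`i < N`, and `u (e' k)`, for `k < b`.

Proof: `exists_sign_perm` (Pool/Agent/Helper10/Koszul.lean), as in the proof of
`Can.exists_reorder` (Pool/Agent/Helper67/CAN/C2.lean); the classes commute up to signs which
depend only on the parities of the `E c` (`W.evK_comm`, `W.odK_anti`, `(hE c).parity`,
`Obs.parityPart_le_evK`, `Obs.parityPart_le_odK`). The `g' k` are `g` at the pair which corresponds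
to `e' k`, see the treatment of `π` in the proof of `C4.hom_case`. -/
theorem exists_reorder_words {P : ℕ} {V : Fin P → SmProjVar k}
    {E : ∀ c, Submodule K (W.H (V c))} (hE : ∀ c, IsPiece W.toCohomologyData (V c) (E c))
    {Q : Type} [Fintype Q] (cQ : Q → Fin P) {b : ℕ} (e' : Q ≃ Fin b) {T : SmProjVar k} {m N : ℕ}
    (φ : Fin m × Fin N ≃ Q) (g : ∀ (j : Fin m) (i : Fin N), T.toOver ⟶ (V (cQ (φ (j, i)))).toOver) :
    ∃ (g' : ∀ k, T.toOver ⟶ (V (cQ (e'.symm k))).toOver) (c : ℤ), ∀ u : ∀ q, W.H (V (cQ q)),
      (∀ q, u q ∈ E (cQ q)) →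
      (List.ofFn fun j => (List.ofFn fun i => W.pull (g j i) (u (φ (j, i)))).prod).prod =
        c • (List.ofFn fun k => W.pull (g' k) (u (e'.symm k))).prod := by
  classical
  -- the morphisms, indexed by `Q`
  obtain ⟨G, hG⟩ : ∃ G : ∀ q, T.toOver ⟶ (V (cQ q)).toOver, ∀ x, G (φ x) = g x.1 x.2 :=
    ⟨Equiv.piCongrLeft (fun q => (T.toOver ⟶ (V (cQ q)).toOver)) φ (fun x => g x.1 x.2), fun x =>
      Equiv.piCongrLeft_apply_apply (fun q => (T.toOver ⟶ (V (cQ q)).toOver)) φ
        (fun x => g x.1 x.2) x⟩
  -- the parities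
  have hq : ∀ c, ∃ q : Bool, ∀ y ∈ E c, if q then y ∈ W.odK (V c) else y ∈ W.evK (V c) := by
    intro c
    obtain ⟨p, hp⟩ := (hE c).parity
    by_cases h : Even p
    · exact ⟨false, fun y hy => by simpa using Obs.parityPart_le_evK W h (hp hy)⟩
    · exact ⟨true, fun y hy => by simpa using Obs.parityPart_le_odK W h (hp hy)⟩
  choose qc hqc using hq
  let sg : Q → Q → ℤ := fun x y => if qc (cQ x) && qc (cQ y) then -1 else 1
  obtain ⟨c, -, hc⟩ := exists_sign_perm (W.H T) sg (fun x y => by
    by_cases h : (qc (cQ x) && qc (cQ y)) = true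
    · exact .inr (if_pos h)
    · exact .inl (if_neg h)) (dt18_perm e' φ)
  refine ⟨fun k => G (e'.symm k), c, fun u hu => ?_⟩
  have hpar : ∀ q, if qc (cQ q) then W.pull (G q) (u q) ∈ W.odK T
      else W.pull (G q) (u q) ∈ W.evK T := by
    intro q
    have h := hqc (cQ q) (u q) (hu q)
    cases hh : qc (cQ q) with
    | false =>
      rw [hh] at h
      have h' : u q ∈ W.evK (V (cQ q)) := by simpa using h
      have h2 : W.pull (G q) (u q) ∈ W.evK T := W.pull_evK (G q) _ h'
      simpa using h2
    | true =>
      rw [hh] at h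
      have h' : u q ∈ W.odK (V (cQ q)) := by simpa using h
      have h2 : W.pull (G q) (u q) ∈ W.odK T := W.pull_odK (G q) _ h'
      simpa using h2
  have h1 := hc (fun q => W.pull (G q) (u q)) (fun x y => by
    have h1 := hpar x
    have h2 := hpar y
    change _ = (if qc (cQ x) && qc (cQ y) then (-1 : ℤ) else 1) • _
    cases hx : qc (cQ x) with
    | false =>
      rw [hx] at h1
      rw [Bool.false_and, if_neg (by simp), one_smul]
      exact W.evK_comm _ _ _ (by simpa using h1)
    | true =>
      rw [hx] at h1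
      have h1' : W.pull (G x) (u x) ∈ W.odK T := by simpa using h1
      cases hy : qc (cQ y) with
      | false =>
        rw [hy] at h2
        rw [Bool.true_and, if_neg (by simp), one_smul]
        exact (W.evK_comm _ _ _ (by simpa using h2)).symm
      | true =>
        rw [hy] at h2
        have h2' : W.pull (G y) (u y) ∈ W.odK T := by simpa using h2
        rw [Bool.true_and, if_pos rfl, neg_one_zsmul]
        exact W.odK_anti _ _ _ h1' h2')
  simp only [List.map_flatten, List.prod_flatten, List.map_ofFn, Function.comp_def, hG] at h1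
  exact h1

end Pool.Agent.Helper11.Dt
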