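import Mathlib
import Pool.Agent.Helper11.Dt.St.T10

/-!
# DT-11: contractions as functions of some of the tensors (project DET, MP_5f0950_ag)
-/

open Finset

namespace Pool.Agent.Helper11.Dt

open Pool.Agent.Helper10.GIT Pool.Agent.Helper11.GIT Pool.Agent.Helper11.Can

variable {P : ℕ} {d : Fin P → ℕ} {K : Type*} [Field K]

/-- The entry of a matrix at two letters is not zero only if both are of its class. -/
private lemma dt11_ent {c : Fin P} {M : Matrix (Fin (d c)) (Fin (d c)) K} {l l' : Let d}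
    (h : ent c M l l' ≠ 0) : ∃ i j, l = ⟨c, i⟩ ∧ l' = ⟨c, j⟩ ∧ M i j ≠ 0 := by
  unfold ent at h
  obtain ⟨i, -, hi⟩ := Finset.exists_ne_zero_of_sum_ne_zero h
  obtain ⟨j, -, hj⟩ := Finset.exists_ne_zero_of_sum_ne_zero hi
  refine ⟨i, j, ?_, ?_, ?_⟩
  · by_contra hl
    exact hj (by rw [if_neg hl, zero_mul, zero_mul])
  · by_contra hl
    exact hj (by rw [if_neg hl, mul_zero, zero_mul])
  · intro hM
    exact hj (by rw [hM, mul_zero])

/-- The contraction of fixed tensors `z r` and of variable tensors `y j` is given by a function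
`ψ` of tuples of words, whose support is bounded by the weights.

Proof: `ψ u = ∑ W, (∏ x, ent …) * ∏ r, z r (W r)`, the sum over all `W : ∀ r, Word d (χ r)`, where
the positions in the summand `.inr j` are filled with the word `u j`
(`Equiv.sumPiEquivProdPi`, `Fintype.prod_sum_type`, `Fintype.sum_prod_type`). If `ψ u ≠ 0` then
some term is not zero, and for this `W` the sum of the weights of all letters, which is the sum of
`γ l + γ l' ≤ 0` over the pairs `(l, l')` contracted by `B` (use `σ` and `Fintype.sum_sigma`), is at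
least `∑ r, b r + ∑ j, wgt γ (u j)`. -/
theorem pform_expand {γ : WSpace d} (B : Mats d K)
    (hB : ∀ c i j, B c i j ≠ 0 → γ ⟨c, i⟩ + γ ⟨c, j⟩ ≤ 0) {I : Type} [Fintype I]
    {χ : I → Shape P} {m : ℕ} {χ' : Shape P} {S : Type} [Fintype S] (cl : S → Fin P)
    (σ : S × Fin 2 ≃ Pos (sumShape χ m χ')) (z : ∀ r, Ten d K (χ r)) (b : I → ℝ)
    (hz : ∀ r w, z r w ≠ 0 → b r ≤ wgt γ (⟨χ r, w⟩ : Words d)) :
    ∃ ψ : (Fin m → Word d χ') → K,
      (∀ u, ψ u ≠ 0 → ∑ j, wgt γ (⟨χ', u j⟩ : Words d) ≤ -∑ r, b r) ∧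
      ∀ y : Fin m → Ten d K χ', pform B cl σ (sumTen z y) = ∑ u, ψ u * ∏ j, y j (u j) := by
  classical
  let e : (∀ r, Word d (sumShape χ m χ' r)) ≃ (∀ r, Word d (χ r)) × (Fin m → Word d χ') :=
    Equiv.sumPiEquivProdPi fun r => Word d (sumShape χ m χ' r)
  let E : (∀ r, Word d (sumShape χ m χ' r)) → K := fun W =>
    ∏ x, ent (cl x) (B (cl x)) (ltp W (σ (x, 0))) (ltp W (σ (x, 1)))
  refine ⟨fun u => ∑ W : ∀ r, Word d (χ r), E (e.symm (W, u)) * ∏ r, z r (W r), ?_, ?_⟩
  · intro u hu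
    obtain ⟨W, -, hW⟩ := Finset.exists_ne_zero_of_sum_ne_zero hu
    have hE : E (e.symm (W, u)) ≠ 0 := left_ne_zero_of_mul hW
    have hz' : ∏ r, z r (W r) ≠ 0 := right_ne_zero_of_mul hW
    have h1 : ∀ x, γ (ltp (e.symm (W, u)) (σ (x, 0))) + γ (ltp (e.symm (W, u)) (σ (x, 1))) ≤ 0 := by
      intro x
      obtain ⟨i, j, hi, hj, hM⟩ := dt11_ent (Finset.prod_ne_zero_iff.mp hE x (Finset.mem_univ x))
      rw [hi, hj]
      exact hB _ _ _ hM
    have h2 : ∀ r, b r ≤ wgt γ (⟨χ r, W r⟩ : Words d) := fun r =>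
      hz r (W r) (Finset.prod_ne_zero_iff.mp hz' r (Finset.mem_univ r))
    have h3 : ∑ q : Pos (sumShape χ m χ'), γ (ltp (e.symm (W, u)) q) ≤ 0 := by
      rw [← Equiv.sum_comp σ, Fintype.sum_prod_type]
      refine Finset.sum_nonpos fun x _ => ?_
      rw [Fin.sum_univ_two]
      exact h1 x
    rw [Fintype.sum_sigma, Fintype.sum_sum_type] at h3
    have h4 : ∑ r, b r ≤ ∑ r, wgt γ (⟨χ r, W r⟩ : Words d) := Finset.sum_le_sum fun r _ => h2 r
    have h5 : ∑ r : I, wgt γ (⟨χ r, W r⟩ : Words d) +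
        ∑ j : Fin m, wgt γ (⟨χ', u j⟩ : Words d) ≤ 0 := h3
    linarith
  · intro y
    have h6 : pform B cl σ (sumTen z y) =
        ∑ p : (∀ r, Word d (χ r)) × (Fin m → Word d χ'),
          E (e.symm p) * ((∏ r, z r (p.1 r)) * ∏ j, y j (p.2 j)) := by
      unfold pform
      refine Finset.sum_equiv e (fun W => by simp) fun W _ => ?_
      rw [Equiv.symm_apply_apply, Fintype.prod_sum_type]
      rfl
    rw [h6, Fintype.sum_prod_type_right]
    refine Finset.sum_congr rfl fun u _ => ?_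
    rw [Finset.sum_mul]
    exact Finset.sum_congr rfl fun W _ => (mul_assoc _ _ _).symm

end Pool.Agent.Helper11.Dt
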