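import Mathlib

/-!
# DT-9: antisymmetrisation of a multilinear form of extremal weight (project DET, MP_5f0950_ag)
-/

open Finset

namespace Pool.Agent.Helper11.Dt

/-- comparison of the sums of `g` over a sublevel set and another set of the same size -/
private lemma dt9_sum {ι : Type*} [DecidableEq ι] (g : ι → ℝ) (t : ℝ) (T U : Finset ι)
    (hcard : T.card = U.card) (hT : ∀ b, b ∈ T ↔ g b ≤ t) :
    ∑ b ∈ T, g b ≤ ∑ b ∈ U, g b ∧ (¬ U ⊆ T → ∑ b ∈ T, g b < ∑ b ∈ U, g b) := by
  have h1 : ∑ b ∈ T, g b = ∑ b ∈ T \ U, g b + ∑ b ∈ T ∩ U, g b := by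
    rw [add_comm, Finset.sum_inter_add_sum_sdiff]
  have h2 : ∑ b ∈ U, g b = ∑ b ∈ U \ T, g b + ∑ b ∈ T ∩ U, g b := by
    rw [add_comm, Finset.inter_comm T U, Finset.sum_inter_add_sum_sdiff]
  have hc : (T \ U).card = (U \ T).card := by
    have a1 := Finset.card_sdiff_add_card_inter T U
    have a2 := Finset.card_sdiff_add_card_inter U T
    rw [Finset.inter_comm U T] at a2
    omega
  have h3 : ∑ b ∈ T \ U, g b ≤ (T \ U).card * t := by
    have := Finset.sum_le_card_nsmul (T \ U) g t (fun b hb => (hT b).1 (Finset.mem_sdiff.1 hb).1)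
    simpa [nsmul_eq_mul] using this
  have h4 : ((U \ T).card : ℝ) * t ≤ ∑ b ∈ U \ T, g b := by
    have := Finset.card_nsmul_le_sum (U \ T) g t (fun b hb => by
      have hb' := (Finset.mem_sdiff.1 hb).2
      rw [hT, not_le] at hb'
      exact hb'.le)
    simpa [nsmul_eq_mul] using this
  refine ⟨?_, fun hne => ?_⟩
  · rw [h1, h2]
    rw [hc] at h3
    linarith
  · have hne' : (U \ T).Nonempty := by
      rw [Finset.sdiff_nonempty]; exact hne
    have h5 : ((U \ T).card : ℝ) * t < ∑ b ∈ U \ T, g b := by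
      have := Finset.sum_lt_sum_of_nonempty (s := U \ T) (f := fun _ => t) (g := g) hne'
        (fun b hb => by
          have hb' := (Finset.mem_sdiff.1 hb).2
          rw [hT, not_le] at hb'
          exact hb')
      simpa [nsmul_eq_mul] using this
    rw [h1, h2]
    rw [hc] at h3
    linarith

/-- Let `L y : Fin (len y) → Fin (dd y)`, `y : Y`, be injective, with image the set of all `b` with
`γ y b ≤ t y`, and let `ψ` be a function of the words `p` with `ψ p ≠ 0` only for the words of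
weight at most the weight of `L`. Then the antisymmetrisation of the form given by `ψ` is a
multiple of the product of the minors with the columns `L y`.

Proof: `∑ τ, sign τ ∏ q, a ⟨q.1, τ q.1 q.2⟩ (p q) = ∏ y, det (fun s s' => a ⟨y, s⟩ (p ⟨y, s'⟩))`
for all `p` (`Finset.prod_univ_sum`, `Fintype.piFinset_univ`, `Matrix.det_apply'`), so that it
suffices to show for all `p` with `ψ p ≠ 0` that
`∏ y, det (fun s s' => a ⟨y, s⟩ (p ⟨y, s'⟩)) = (∏ y, det (fun s s' => if p ⟨y, s⟩ = L y s' then 1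
else 0)) * ∏ y, det (fun s s' => a ⟨y, s⟩ (L y s'))`. If all letters `p ⟨y, s⟩` are in the range of
`L y`, this is `det_mul` (and `det_transpose`) for each `y`. If some `p ⟨y, ·⟩` is not injective,
both sides vanish. If all the `p ⟨y, ·⟩` are injective, but for some `y` its range is not that of
`L y`, then the weight of `p` is larger than that of `L`: for each `y`,
`∑ s, γ y (L y s) ≤ ∑ s, γ y (p ⟨y, s⟩)`, with strict inequality if the ranges differ (compare
`U \ T` and `T \ U` for the ranges `T`, `U`, finite sets with the same number of elements). -/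
theorem alt_form {K : Type*} [Field K] {Y : Type} [Fintype Y] [DecidableEq Y] (len dd : Y → ℕ)
    (L : ∀ y, Fin (len y) → Fin (dd y)) (hL : ∀ y, Function.Injective (L y))
    (γ : ∀ y, Fin (dd y) → ℝ) (t : Y → ℝ) (hLt : ∀ y b, b ∈ Set.range (L y) ↔ γ y b ≤ t y)
    (ψ : (∀ q : (Σ y : Y, Fin (len y)), Fin (dd q.1)) → K)
    (hψ : ∀ p, ψ p ≠ 0 → ∑ q, γ q.1 (p q) ≤ ∑ q : (Σ y : Y, Fin (len y)), γ q.1 (L q.1 q.2))
    (a : ∀ q : (Σ y : Y, Fin (len y)), Fin (dd q.1) → K) :
    ∑ τ : (∀ y, Equiv.Perm (Fin (len y))), ((∏ y, ((Equiv.Perm.sign (τ y) : ℤ) : K)) *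
      ∑ p, ψ p * ∏ q : (Σ y : Y, Fin (len y)), a ⟨q.1, τ q.1 q.2⟩ (p q)) =
    (∑ p, ψ p * ∏ y, Matrix.det (Matrix.of fun s s' => if p ⟨y, s⟩ = L y s' then (1 : K) else 0)) *
      ∏ y, Matrix.det (Matrix.of fun s s' => a ⟨y, s⟩ (L y s')) := by
  classical
  -- step 1
  have hstep : ∀ p : (∀ q : (Σ y : Y, Fin (len y)), Fin (dd q.1)),
      ∑ τ : (∀ y, Equiv.Perm (Fin (len y))), ((∏ y, ((Equiv.Perm.sign (τ y) : ℤ) : K)) *
        ∏ q : (Σ y : Y, Fin (len y)), a ⟨q.1, τ q.1 q.2⟩ (p q)) =
      ∏ y, Matrix.det (Matrix.of fun s s' => a ⟨y, s⟩ (p ⟨y, s'⟩)) := by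
    intro p
    simp_rw [Matrix.det_apply']
    rw [Finset.prod_univ_sum, Fintype.piFinset_univ]
    refine Finset.sum_congr rfl fun τ _ => ?_
    rw [Finset.prod_mul_distrib]
    congr 1
    rw [← Finset.univ_sigma_univ, Finset.prod_sigma]
    rfl
  have hL1 : ∑ τ : (∀ y, Equiv.Perm (Fin (len y))), ((∏ y, ((Equiv.Perm.sign (τ y) : ℤ) : K)) *
      ∑ p, ψ p * ∏ q : (Σ y : Y, Fin (len y)), a ⟨q.1, τ q.1 q.2⟩ (p q)) =
      ∑ p, ψ p * ∏ y, Matrix.det (Matrix.of fun s s' => a ⟨y, s⟩ (p ⟨y, s'⟩)) := by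
    simp_rw [Finset.mul_sum]
    rw [Finset.sum_comm]
    refine Finset.sum_congr rfl fun p _ => ?_
    rw [← hstep p, Finset.mul_sum]
    refine Finset.sum_congr rfl fun τ _ => ?_
    ring
  rw [hL1, Finset.sum_mul]
  refine Finset.sum_congr rfl fun p _ => ?_
  by_cases hp0 : ψ p = 0
  · simp [hp0]
  rw [mul_assoc]
  congr 1
  have hw := hψ p hp0
  let P : ∀ y, Fin (len y) → Fin (dd y) := fun y s => p ⟨y, s⟩
  by_cases hinj : ∀ y, Function.Injective (P y)
  · have hr : ∀ y s, P y s ∈ Set.range (L y) := by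
      by_contra hcon
      push Not at hcon
      obtain ⟨y₀, s₀, hs₀⟩ := hcon
      have hsum : ∀ y, ∑ s, γ y (L y s) = ∑ b ∈ Finset.univ.image (L y), γ y b := fun y => by
        rw [Finset.sum_image fun _ _ _ _ h => hL y h]
      have hsum' : ∀ y, ∑ s, γ y (P y s) =
          ∑ b ∈ Finset.univ.image (P y), γ y b := fun y => by
        rw [Finset.sum_image fun _ _ _ _ h => hinj y h]
      have hcmp := fun y => dt9_sum (γ y) (t y) (Finset.univ.image (L y))
        (Finset.univ.image (P y))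
        (by rw [Finset.card_image_of_injective _ (hL y), Finset.card_image_of_injective _ (hinj y)])
        (fun b => by rw [← hLt y b]; simp)
      have hlt : ∑ y, ∑ s, γ y (L y s) < ∑ y, ∑ s, γ y (P y s) := by
        refine Finset.sum_lt_sum (fun y _ => ?_) ⟨y₀, Finset.mem_univ _, ?_⟩
        · rw [hsum, hsum']; exact (hcmp y).1
        · rw [hsum, hsum']
          refine (hcmp y₀).2 fun hsub => hs₀ ?_
          have := hsub (Finset.mem_image_of_mem _ (Finset.mem_univ s₀))
          simpa using this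
      rw [← Finset.univ_sigma_univ, Finset.sum_sigma, Finset.sum_sigma] at hw
      exact absurd hw (not_le.2 hlt)
    rw [← Finset.prod_mul_distrib]
    refine Finset.prod_congr rfl fun y _ => ?_
    have hmat : (Matrix.of fun s s' => a ⟨y, s⟩ (p ⟨y, s'⟩)) =
        (Matrix.of fun s s' => a ⟨y, s⟩ (L y s')) *
          (Matrix.of fun s s' => if p ⟨y, s⟩ = L y s' then (1 : K) else 0).transpose := by
      ext s s'
      rw [Matrix.mul_apply]
      simp only [Matrix.of_apply, Matrix.transpose_apply]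
      obtain ⟨u, hu⟩ := hr y s'
      rw [Finset.sum_eq_single u]
      · rw [hu]; simp [P]
      · intro u' _ hne
        rw [if_neg, mul_zero]
        intro h
        exact hne (hL y (hu.trans h).symm)
      · intro h; exact absurd (Finset.mem_univ _) h
    rw [hmat, Matrix.det_mul, Matrix.det_transpose, mul_comm]
  · push Not at hinj
    obtain ⟨y, hy⟩ := hinj
    unfold Function.Injective at hy
    push Not at hy
    obtain ⟨s, s', hss, hne⟩ := hy
    have e1 : Matrix.det (Matrix.of fun s s' => a ⟨y, s⟩ (p ⟨y, s'⟩)) = 0 :=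
      Matrix.det_zero_of_column_eq hne fun u => by
        have : p ⟨y, s⟩ = p ⟨y, s'⟩ := hss
        simp [this]
    have e2 : Matrix.det (Matrix.of fun s s' => if p ⟨y, s⟩ = L y s' then (1 : K) else 0) = 0 :=
      Matrix.det_zero_of_row_eq hne (by
        have : p ⟨y, s⟩ = p ⟨y, s'⟩ := hss
        funext u
        simp [this])
    rw [Finset.prod_eq_zero (Finset.mem_univ y) e1, Finset.prod_eq_zero (Finset.mem_univ y) e2,
      zero_mul]

end Pool.Agent.Helper11.Dt
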