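import Mathlib
import Pool.Agent.Helper11.Dt.St.T9
import Pool.Agent.Helper11.Dt.St.T11

/-!
# DT-12: antisymmetrisation of a contraction (project DET, MP_5f0950_ag)
-/

open Finset

namespace Pool.Agent.Helper11.Dt

open Pool.Agent.Helper10.GIT Pool.Agent.Helper11.GIT Pool.Agent.Helper11.Can

variable {P : ℕ} {d : Fin P → ℕ} {K : Type*} [Field K]

/-- reindexing of a double product -/
private lemma dt12_prod {M : Type*} [CommMonoid M] {m : ℕ} {X : Type} [Fintype X] {len : X → ℕ}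
    (F : Fin m → (Σ x : X, Fin (len x)) → M) :
    ∏ j, ∏ q, F j q = ∏ q : (Σ y : Fin m × X, Fin (len y.2)), F q.1.1 ⟨q.1.2, q.2⟩ := by
  rw [Fintype.prod_sigma, Fintype.prod_prod_type]
  refine prod_congr rfl fun j _ => ?_
  rw [Fintype.prod_sigma]

/-- reindexing of a double sum -/
private lemma dt12_sum {M : Type*} [AddCommMonoid M] {m : ℕ} {X : Type} [Fintype X] {len : X → ℕ}
    (F : Fin m → (Σ x : X, Fin (len x)) → M) :
    ∑ j, ∑ q, F j q = ∑ q : (Σ y : Fin m × X, Fin (len y.2)), F q.1.1 ⟨q.1.2, q.2⟩ := by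
  rw [Fintype.sum_sigma, Fintype.sum_prod_type]
  refine sum_congr rfl fun j _ => ?_
  rw [Fintype.sum_sigma]

/-- tuples of words as functions on all the blocks -/
private def dt12_equiv (m : ℕ) {X : Type} (cl' : X → Fin P) {len : X → ℕ} {N : ℕ}
    (e : (Σ x : X, Fin (len x)) ≃ Fin N) :
    (∀ q : (Σ y : Fin m × X, Fin (len y.2)), Fin (d (cl' q.1.2))) ≃
      (Fin m → Word d (bshape cl' e)) where
  toFun p := fun j => bword d cl' e (fun q => p ⟨(j, q.1), q.2⟩)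
  invFun u := fun q => (bword d cl' e).symm (u q.1.1) ⟨q.1.2, q.2⟩
  left_inv p := by
    funext q
    simp only [Equiv.symm_apply_apply]
  right_inv u := by
    funext j
    exact (bword d cl' e).apply_symm_apply (u j)

/-- Antisymmetrisation of the contraction of tensors of sufficiently large weights with decomposable
tensors.

Proof: `pform_expand` gives `ψ` on tuples of words; tuples of words `Fin m → Word d (bshape cl' e)`
correspond to functions `p` of `q : Σ y : Fin m × X, Fin (len y.2)`, by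
`u j i = p ⟨(j, (e.symm i).1), (e.symm i).2⟩` (use `bword`, for each `j`, and currying), and under
this bijection `∏ j, ∏ i, a ⟨(j, (e.symm i).1), τ _ (e.symm i).2⟩ (u j i)` becomes
`∏ q, a ⟨q.1, τ q.1 q.2⟩ (p q)`, `∏ j, bdet cl' e L (u j)` becomes
`∏ y, det (fun s s' => if p ⟨y, s⟩ = L y.2 s' then 1 else 0)` (`bdet_bword`) and
`∑ j, wgt γ (u j)` becomes `∑ q, γ ⟨cl' q.1.2, p q⟩` (`wgt_bword`). Apply `alt_form` with
`Y = Fin m × X`, `len y = len y.2`, `dd y = d (cl' y.2)`. -/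
theorem alt_pform {γ : WSpace d} (B : Mats d K)
    (hB : ∀ c i j, B c i j ≠ 0 → γ ⟨c, i⟩ + γ ⟨c, j⟩ ≤ 0) {I : Type} [Fintype I]
    {χ : I → Shape P} {m : ℕ} {X : Type} [Fintype X] [DecidableEq X] (cl' : X → Fin P)
    {len : X → ℕ} {N : ℕ} (e : (Σ x : X, Fin (len x)) ≃ Fin N)
    (L : ∀ x, Fin (len x) → Fin (d (cl' x))) (hL : ∀ x, Function.Injective (L x)) (t : X → ℝ)
    (hLt : ∀ x b, b ∈ Set.range (L x) ↔ γ ⟨cl' x, b⟩ ≤ t x)
    {S : Type} [Fintype S] (cl : S → Fin P)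
    (σ : S × Fin 2 ≃ Pos (sumShape χ m (bshape cl' e))) (z : ∀ r, Ten d K (χ r)) (b : I → ℝ)
    (hz : ∀ r w, z r w ≠ 0 → b r ≤ wgt γ (⟨χ r, w⟩ : Words d))
    (hb : (m : ℝ) * -(∑ q : (Σ x : X, Fin (len x)), γ ⟨cl' q.1, L q.1 q.2⟩) ≤ ∑ r, b r)
    (a : ∀ q : (Σ y : Fin m × X, Fin (len y.2)), Fin (d (cl' q.1.2)) → K) :
    ∑ τ : (∀ y : Fin m × X, Equiv.Perm (Fin (len y.2))),
      ((∏ y, ((Equiv.Perm.sign (τ y) : ℤ) : K)) * pform B cl σ (sumTen z fun j w =>
        ∏ i : Fin N, a ⟨(j, (e.symm i).1), τ (j, (e.symm i).1) (e.symm i).2⟩ (w i))) =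
    pform B cl σ (sumTen z fun _ => bdet cl' e L) *
      ∏ y : Fin m × X, Matrix.det (Matrix.of fun s s' => a ⟨y, s⟩ (L y.2 s')) := by
  classical
  obtain ⟨ψ, hψ, hform⟩ := pform_expand (χ' := bshape cl' e) B hB cl σ z b hz
  let E := dt12_equiv (d := d) m cl' e
  have key := alt_form (K := K) (Y := Fin m × X) (fun y => len y.2) (fun y => d (cl' y.2))
    (fun y => L y.2) (fun y => hL y.2) (fun y b => γ ⟨cl' y.2, b⟩) (fun y => t y.2)
    (fun y b => hLt y.2 b) (fun p => ψ (E p)) ?_ a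
  · have h1 : ∀ τ : (∀ y : Fin m × X, Equiv.Perm (Fin (len y.2))),
        pform B cl σ (sumTen z fun j w =>
          ∏ i : Fin N, a ⟨(j, (e.symm i).1), τ (j, (e.symm i).1) (e.symm i).2⟩ (w i)) =
        ∑ p, ψ (E p) * ∏ q : (Σ y : Fin m × X, Fin (len y.2)), a ⟨q.1, τ q.1 q.2⟩ (p q) := by
      intro τ
      rw [hform, ← Equiv.sum_comp E]
      refine sum_congr rfl fun p _ => ?_
      congr 1
      rw [← dt12_prod (fun j (q : Σ x : X, Fin (len x)) =>
        a ⟨(j, q.1), τ (j, q.1) q.2⟩ (p ⟨(j, q.1), q.2⟩))]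
      refine prod_congr rfl fun j _ => ?_
      exact Equiv.prod_comp e.symm fun q : (Σ x : X, Fin (len x)) =>
        a ⟨(j, q.1), τ (j, q.1) q.2⟩ (p ⟨(j, q.1), q.2⟩)
    have h2 : pform B cl σ (sumTen z fun _ => bdet cl' e L) =
        ∑ p, ψ (E p) * ∏ y : Fin m × X, Matrix.det (Matrix.of fun s s' =>
          if p ⟨y, s⟩ = L y.2 s' then (1 : K) else 0) := by
      rw [hform, ← Equiv.sum_comp E]
      refine sum_congr rfl fun p _ => ?_
      congr 1
      rw [Fintype.prod_prod_type]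
      refine prod_congr rfl fun j _ => ?_
      exact bdet_bword (R := K) cl' e L (fun q => p ⟨(j, q.1), q.2⟩)
    simp_rw [h1]
    rw [h2]
    exact key
  · intro p hp
    have h3 := hψ (E p) hp
    have h4 : ∑ j, wgt γ (⟨bshape cl' e, E p j⟩ : Words d) =
        ∑ q : (Σ y : Fin m × X, Fin (len y.2)), γ ⟨cl' q.1.2, p q⟩ := by
      rw [← dt12_sum (fun j (q : Σ x : X, Fin (len x)) => γ ⟨cl' q.1, p ⟨(j, q.1), q.2⟩⟩)]
      exact sum_congr rfl fun j _ => wgt_bword cl' e γ (fun q => p ⟨(j, q.1), q.2⟩)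
    have h5 : ∑ q : (Σ y : Fin m × X, Fin (len y.2)), γ ⟨cl' q.1.2, L q.1.2 q.2⟩ =
        (m : ℝ) * ∑ q : (Σ x : X, Fin (len x)), γ ⟨cl' q.1, L q.1 q.2⟩ := by
      rw [← dt12_sum (fun (_ : Fin m) (q : Σ x : X, Fin (len x)) => γ ⟨cl' q.1, L q.1 q.2⟩)]
      rw [sum_const, card_univ, Fintype.card_fin, nsmul_eq_mul]
    rw [h4] at h3
    rw [h5]
    linarith

end Pool.Agent.Helper11.Dt
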