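import Mathlib
import Pool.Agent.Helper11.Dt.Defs

/-!
# DT-1: contractions of the limits vanish (project DET, MP_5f0950_ag)
-/

open Finset

namespace Pool.Agent.Helper11.Dt

open Pool.Agent.Helper10.GIT Pool.Agent.Helper11.GIT Pool.Agent.Helper11.Can

variable {P : ℕ} {d : Fin P → ℕ} {K : Type*} [Field K]

private lemma dt1_ent_hmat {P : ℕ} {d : Fin P → ℕ} {K : Type*} [Field K] (γ : WSpace d)
    (c : Fin P) (M : Matrix (Fin (d c)) (Fin (d c)) K) (l l' : Let d) :
    ent c (hmat γ c M) l l' = (open Classical in if γ l + γ l' = 0 then ent c M l l' else 0) := by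
  classical
  unfold ent hmat
  by_cases h : γ l + γ l' = 0
  · rw [if_pos h]
    refine sum_congr rfl fun i _ => sum_congr rfl fun j _ => ?_
    by_cases h1 : l = ⟨c, i⟩
    · by_cases h2 : l' = ⟨c, j⟩
      · have h3 : γ ⟨c, i⟩ + γ ⟨c, j⟩ = 0 := by rw [← h1, ← h2]; exact h
        rw [Matrix.of_apply, if_pos h3]
      · rw [if_neg h2]; simp
    · rw [if_neg h1]; simp
  · rw [if_neg h]
    refine sum_eq_zero fun i _ => sum_eq_zero fun j _ => ?_
    by_cases h1 : l = ⟨c, i⟩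
    · by_cases h2 : l' = ⟨c, j⟩
      · have h3 : ¬ γ ⟨c, i⟩ + γ ⟨c, j⟩ = 0 := by rw [← h1, ← h2]; exact h
        rw [Matrix.of_apply, if_neg h3, mul_zero]
      · rw [if_neg h2]; simp
    · rw [if_neg h1]; simp

private lemma dt1_ent_ne {P : ℕ} {d : Fin P → ℕ} {K : Type*} [Field K] (γ : WSpace d)
    (c : Fin P) (M : Matrix (Fin (d c)) (Fin (d c)) K)
    (hM : ∀ i j, M i j ≠ 0 → γ ⟨c, i⟩ + γ ⟨c, j⟩ ≤ 0) (l l' : Let d) (h : ent c M l l' ≠ 0) :
    γ l + γ l' ≤ 0 := by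
  classical
  unfold ent at h
  obtain ⟨i, -, hi⟩ := exists_ne_zero_of_sum_ne_zero h
  obtain ⟨j, -, hj⟩ := exists_ne_zero_of_sum_ne_zero hi
  have h1 : l = ⟨c, i⟩ := by
    by_contra h1
    rw [if_neg h1] at hj
    simp at hj
  have h2 : l' = ⟨c, j⟩ := by
    by_contra h2
    rw [if_neg h2] at hj
    simp at hj
  have h3 : M i j ≠ 0 := by
    intro h3
    rw [h3] at hj
    simp at hj
  rw [h1, h2]
  exact hM i j h3

private lemma dt1_weight {P : ℕ} {d : Fin P → ℕ} (γ : WSpace d) {I : Type} [Fintype I]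
    {χ : I → Shape P} {S : Type} [Fintype S] (σ : S × Fin 2 ≃ Pos χ) (W : ∀ r, Word d (χ r)) :
    ∑ r, wgt γ (⟨χ r, W r⟩ : Words d) = ∑ x, (γ (ltp W (σ (x, 0))) + γ (ltp W (σ (x, 1)))) := by
  have h1 : ∑ r, wgt γ (⟨χ r, W r⟩ : Words d) = ∑ q : Pos χ, γ (ltp W q) := by
    rw [Fintype.sum_sigma]
    rfl
  rw [h1, ← Equiv.sum_comp σ, Fintype.sum_prod_type]
  refine sum_congr rfl fun x _ => ?_
  rw [Fin.sum_univ_two]

private lemma dt1_choice {P : ℕ} {d : Fin P → ℕ} {K : Type*} [Field K] {A N : Family d K}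
    {γ : WSpace d}
    (hA : ∀ χ, ∀ z ∈ A χ, ∀ w : Word d χ, z w ≠ 0 → 0 ≤ wgt γ ⟨χ, w⟩)
    (hN : ∀ χ, ∀ z ∈ N χ, ∀ w : Word d χ, z w ≠ 0 → 1 ≤ wgt γ ⟨χ, w⟩)
    (η : Σ χ : Shape P, Ten d K χ) {ω : ℝ} (hη : ∀ w, η.2 w ≠ 0 → wgt γ ⟨η.1, w⟩ = -ω)
    (χ : Shape P) (z : Ten d K χ) (hz : z ∈ limA γ A N η χ) :
    ∃ (t : Fin 3) (z' : Ten d K χ), ((t = 0 → z' ∈ A χ) ∧ (t = 1 → z' ∈ N χ) ∧
      (t = 2 → (⟨χ, z'⟩ : Σ χ : Shape P, Ten d K χ) = η)) ∧ (z ∈ single η χ → t = 2) ∧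
      (∀ w, z w ≠ 0 → wgt γ ⟨χ, w⟩ = (if t = 1 then 1 else 0) - ω * (if t = 2 then 1 else 0)) ∧
      (∀ w, wgt γ ⟨χ, w⟩ = (if t = 1 then 1 else 0) - ω * (if t = 2 then 1 else 0) →
        z w = z' w) ∧
      (∀ w, z' w ≠ 0 →
        (if t = 1 then 1 else 0) - ω * (if t = 2 then 1 else 0) ≤ wgt γ ⟨χ, w⟩) := by
  classical
  by_cases h2 : z ∈ single η χ
  · have h3 : (⟨χ, z⟩ : Σ χ : Shape P, Ten d K χ) = η := h2
    have h4 : ∀ w, z w ≠ 0 → wgt γ ⟨χ, w⟩ = -ω := by
      subst h3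
      exact hη
    refine ⟨2, z, ⟨fun h => ?_, fun h => ?_, fun _ => h3⟩, fun _ => rfl, ?_, fun _ _ => rfl, ?_⟩
    · exact absurd h (by decide)
    · exact absurd h (by decide)
    · intro w hw
      rw [h4 w hw]
      simp
    · intro w hw
      rw [h4 w hw]
      simp
  · rcases hz with (h0 | h1) | h
    · obtain ⟨z', hz', rfl⟩ := h0
      refine ⟨0, z', ⟨fun _ => hz', fun h => ?_, fun h => ?_⟩, fun h => absurd h h2, ?_, ?_, ?_⟩
      · exact absurd h (by decide)
      · exact absurd h (by decide)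
      · intro w hw
        unfold hpart at hw
        by_cases h5 : wgt γ ⟨χ, w⟩ = 0
        · rw [h5]; simp
        · rw [if_neg h5] at hw
          exact absurd rfl hw
      · intro w hw
        unfold hpart
        rw [if_pos]
        rw [hw]; simp
      · intro w hw
        have := hA χ z' hz' w hw
        simpa using this
    · obtain ⟨z', hz', rfl⟩ := h1
      refine ⟨1, z', ⟨fun h => ?_, fun _ => hz', fun h => ?_⟩, fun h => absurd h h2, ?_, ?_, ?_⟩
      · exact absurd h (by decide)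
      · exact absurd h (by decide)
      · intro w hw
        unfold hpart at hw
        by_cases h5 : wgt γ ⟨χ, w⟩ = 1
        · rw [h5]; simp
        · rw [if_neg h5] at hw
          exact absurd rfl hw
      · intro w hw
        unfold hpart
        rw [if_pos]
        rw [hw]; simp
      · intro w hw
        have := hN χ z' hz' w hw
        simpa using this
    · exact absurd h h2

/-- If all contractions of tensors of `A`, tensors of `N` (at least `ω` times as many of them as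
of copies of `η`) and copies of `η` (at least one) vanish, then so do all contractions, by the
part of weight zero of `B`, of the limits, one of them being `η`.

Proof: given `I`, `z`, ... for `PZero`, put `t r = 2` if `z r ∈ single η`, otherwise `t r = 0` if
`z r` is the part of weight `0` of some `z' r ∈ A`, otherwise `t r = 1` and `z r` is the part of
weight `1` of some `z' r ∈ N` (`z' r = z r` if `t r = 2`). A word `W` with a nonzero term in the
sum `pform` for `hmat B` and `z` has `∑ r, wgt γ (W r) = 0` (sum over pairs of positions), and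
`wgt γ (W r)` is `0`, `1`, `- ω` for `t r = 0, 1, 2`, so that `#{t = 1} = ω * #{t = 2}`. If this
does not hold, `pform = 0`. If it holds, then `pform B z' = 0` by `H`, and the two sums agree term
by term: if the term of `W` for `B`, `z'` is nonzero, then
`0 ≥ ∑ r, wgt γ (W r) ≥ #{t = 1} - ω * #{t = 2} = 0`, so that all the inequalities are equalities.
(`ent c (B c) l l' ≠ 0` implies `l = ⟨c, i⟩`, `l' = ⟨c, j⟩`, `B c i j ≠ 0`; the sum of the weights
of the letters over all positions is the sum over `S × Fin 2`, by `σ`, and the sum over `r` of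
`wgt γ (W r)`, by `Fintype.sum_sigma`.) -/
theorem pZero_limit {A N : Family d K} {γ : WSpace d}
    (hA : ∀ χ, ∀ z ∈ A χ, ∀ w : Word d χ, z w ≠ 0 → 0 ≤ wgt γ ⟨χ, w⟩)
    (hN : ∀ χ, ∀ z ∈ N χ, ∀ w : Word d χ, z w ≠ 0 → 1 ≤ wgt γ ⟨χ, w⟩)
    (η : Σ χ : Shape P, Ten d K χ) {ω : ℝ} (hη : ∀ w, η.2 w ≠ 0 → wgt γ ⟨η.1, w⟩ = -ω)
    (B : Mats d K) (hB : ∀ c i j, B c i j ≠ 0 → γ ⟨c, i⟩ + γ ⟨c, j⟩ ≤ 0)
    (H : ∀ (I : Type) [Fintype I] (χ : I → Shape P) (S : Type) [Fintype S] (cl : S → Fin P)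
      (σ : S × Fin 2 ≃ Pos χ) (z : ∀ r, Ten d K (χ r)) (t : I → Fin 3), Mixed A N η z t →
      (∃ r, t r = 2) → (#{r | t r = 2} : ℝ) * ω ≤ #{r | t r = 1} → pform B cl σ z = 0) :
    PZero (fun c => hmat γ c (B c)) (limA γ A N η) (single η) := by
  classical
  intro I _ χ S _ cl σ z hz hz2
  choose t z' ht1 ht2 ht3 ht4 ht5 using fun r => dt1_choice hA hN η hη (χ r) (z r) (hz r)
  have hw := fun W : ∀ r, Word d (χ r) => dt1_weight γ σ W
  have g1 : ∀ W : ∀ r, Word d (χ r),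
      (∏ x, ent (cl x) (hmat γ (cl x) (B (cl x))) (ltp W (σ (x, 0))) (ltp W (σ (x, 1)))) *
        ∏ r, z r (W r) ≠ 0 →
      (∀ r, wgt γ (⟨χ r, W r⟩ : Words d)
        = (if t r = 1 then 1 else 0) - ω * (if t r = 2 then 1 else 0)) ∧
      ∀ x, γ (ltp W (σ (x, 0))) + γ (ltp W (σ (x, 1))) = 0 := by
    intro W hW
    refine ⟨fun r => ?_, fun x => ?_⟩
    · exact ht3 r (W r) (prod_ne_zero_iff.1 (right_ne_zero_of_mul hW) r (mem_univ r))
    · have h1 := prod_ne_zero_iff.1 (left_ne_zero_of_mul hW) x (mem_univ x)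
      rw [dt1_ent_hmat] at h1
      by_contra h2
      rw [if_neg h2] at h1
      exact h1 rfl
  have g2 : ∀ W : ∀ r, Word d (χ r), ((∀ r, wgt γ (⟨χ r, W r⟩ : Words d)
        = (if t r = 1 then 1 else 0) - ω * (if t r = 2 then 1 else 0)) ∧
      ∀ x, γ (ltp W (σ (x, 0))) + γ (ltp W (σ (x, 1))) = 0) →
      (∏ x, ent (cl x) (hmat γ (cl x) (B (cl x))) (ltp W (σ (x, 0))) (ltp W (σ (x, 1)))) *
        ∏ r, z r (W r) =
      (∏ x, ent (cl x) (B (cl x)) (ltp W (σ (x, 0))) (ltp W (σ (x, 1)))) *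
        ∏ r, z' r (W r) := by
    intro W hW
    congr 1
    · refine prod_congr rfl fun x _ => ?_
      rw [dt1_ent_hmat, if_pos (hW.2 x)]
    · exact prod_congr rfl fun r _ => ht4 r (W r) (hW.1 r)
  have hsum : ∑ r, ((if t r = 1 then (1 : ℝ) else 0) - ω * (if t r = 2 then (1 : ℝ) else 0))
      = (#{r | t r = 1} : ℝ) - ω * (#{r | t r = 2} : ℝ) := by
    rw [sum_sub_distrib, ← mul_sum, sum_boole, sum_boole]
  by_cases hs : ∑ r, ((if t r = 1 then (1 : ℝ) else 0) - ω * (if t r = 2 then (1 : ℝ) else 0)) = 0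
  · have hz' : pform B cl σ z' = 0 := by
      refine H I χ S cl σ z' t ht1 ?_ ?_
      · obtain ⟨r, hr⟩ := hz2
        exact ⟨r, ht2 r hr⟩
      · rw [hsum] at hs
        linarith
    rw [← hz']
    unfold pform
    refine sum_congr rfl fun W _ => ?_
    by_cases hG : (∀ r, wgt γ (⟨χ r, W r⟩ : Words d)
        = (if t r = 1 then 1 else 0) - ω * (if t r = 2 then 1 else 0)) ∧
      ∀ x, γ (ltp W (σ (x, 0))) + γ (ltp W (σ (x, 1))) = 0
    · exact g2 W hG
    · have e1 : (∏ x, ent (cl x) (hmat γ (cl x) (B (cl x))) (ltp W (σ (x, 0)))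
          (ltp W (σ (x, 1)))) * ∏ r, z r (W r) = 0 := by
        by_contra h
        exact hG (g1 W h)
      have e2 : (∏ x, ent (cl x) (B (cl x)) (ltp W (σ (x, 0))) (ltp W (σ (x, 1)))) *
          ∏ r, z' r (W r) = 0 := by
        by_contra h
        apply hG
        have k1 : ∀ x ∈ (univ : Finset S),
            γ (ltp W (σ (x, 0))) + γ (ltp W (σ (x, 1))) ≤ 0 := by
          intro x _
          exact dt1_ent_ne γ (cl x) (B (cl x)) (hB (cl x)) _ _
            (prod_ne_zero_iff.1 (left_ne_zero_of_mul h) x (mem_univ x))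
        have k2 : ∀ r ∈ (univ : Finset I),
            ((if t r = 1 then (1 : ℝ) else 0) - ω * (if t r = 2 then (1 : ℝ) else 0))
              ≤ wgt γ (⟨χ r, W r⟩ : Words d) := by
          intro r _
          exact ht5 r (W r) (prod_ne_zero_iff.1 (right_ne_zero_of_mul h) r (mem_univ r))
        have k3 := sum_le_sum k2
        have k4 := sum_nonpos k1
        rw [hs] at k3
        rw [hw W] at k3
        have k5 : ∑ x, (γ (ltp W (σ (x, 0))) + γ (ltp W (σ (x, 1)))) = 0 := le_antisymm k4 k3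
        refine ⟨fun r => ?_, fun x => ?_⟩
        · have k6 : ∑ r, ((if t r = 1 then (1 : ℝ) else 0) - ω * (if t r = 2 then (1 : ℝ) else 0))
              = ∑ r, wgt γ (⟨χ r, W r⟩ : Words d) := by
            rw [hs, hw W, k5]
          exact ((sum_eq_sum_iff_of_le k2).1 k6 r (mem_univ r)).symm
        · exact (sum_eq_zero_iff_of_nonpos k1).1 k5 x (mem_univ x)
      rw [e1, e2]
  · unfold pform
    refine sum_eq_zero fun W _ => ?_
    by_contra h
    have hG := g1 W h
    apply hs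
    have k6 : ∑ r, wgt γ (⟨χ r, W r⟩ : Words d)
        = ∑ r, ((if t r = 1 then (1 : ℝ) else 0) - ω * (if t r = 2 then (1 : ℝ) else 0)) :=
      sum_congr rfl fun r _ => hG.1 r
    rw [← k6, hw W]
    exact sum_eq_zero fun x _ => hG.2 x

end Pool.Agent.Helper11.Dt
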