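import Mathlib
import Pool.Agent.Helper11.Dt.Defs

/-!
# DT-2: homogeneous parts (project DET, MP_5f0950_ag)
-/

open Finset

namespace Pool.Agent.Helper11.Dt

open Pool.Agent.Helper10.GIT Pool.Agent.Helper11.GIT Pool.Agent.Helper11.Can

variable {P : ℕ} {d : Fin P → ℕ} {K : Type*} [Field K]

/-- the part of weight zero of the inverse (if `γ i = γ k`, only the `j` with `γ j = - γ i`
contribute to `(G * B) i k`; if `γ i ≠ γ k` then all terms of the left side vanish) -/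
theorem hmat_mul (γ : WSpace d) (c : Fin P) {G B : Matrix (Fin (d c)) (Fin (d c)) K}
    (hG : ∀ i j, G i j ≠ 0 → 0 ≤ γ ⟨c, i⟩ + γ ⟨c, j⟩)
    (hB : ∀ i j, B i j ≠ 0 → γ ⟨c, i⟩ + γ ⟨c, j⟩ ≤ 0) (h : G * B = 1) :
    hmat γ c G * hmat γ c B = 1 := by
  classical
  ext i k
  rw [Matrix.mul_apply]
  by_cases hik : γ ⟨c, i⟩ = γ ⟨c, k⟩
  · rw [← h, Matrix.mul_apply]
    refine sum_congr rfl fun j _ => ?_
    unfold hmat
    rw [Matrix.of_apply, Matrix.of_apply]
    by_cases h1 : G i j = 0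
    · rw [h1, ite_self, zero_mul, zero_mul]
    · by_cases h2 : B j k = 0
      · rw [h2, ite_self, mul_zero, mul_zero]
      · have h3 := hG i j h1
        have h4 := hB j k h2
        have h5 : γ ⟨c, i⟩ + γ ⟨c, j⟩ = 0 := by linarith
        have h6 : γ ⟨c, j⟩ + γ ⟨c, k⟩ = 0 := by linarith
        rw [if_pos h5, if_pos h6]
  · have hne : i ≠ k := fun h => hik (by rw [h])
    rw [Matrix.one_apply_ne hne]
    refine sum_eq_zero fun j _ => ?_
    unfold hmat
    rw [Matrix.of_apply, Matrix.of_apply]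
    by_cases h5 : γ ⟨c, i⟩ + γ ⟨c, j⟩ = 0
    · by_cases h6 : γ ⟨c, j⟩ + γ ⟨c, k⟩ = 0
      · exact absurd (by linarith) hik
      · rw [if_neg h6, mul_zero]
    · rw [if_neg h5, zero_mul]

theorem hpart_mten (γ : WSpace d) (c : Fin P) (G : Matrix (Fin (d c)) (Fin (d c)) K) :
    hpart γ 0 (mten c G) = mten c (hmat γ c G) := by
  classical
  funext w
  unfold hpart mten hmat
  rw [Matrix.of_apply]
  have h1 : wgt γ (⟨two c, w⟩ : Words d) = γ ⟨c, w (0 : Fin 2)⟩ + γ ⟨c, w (1 : Fin 2)⟩ := by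
    unfold wgt
    exact Fin.sum_univ_two _
  rw [h1]

/-- diagonal matrices act on homogeneous tensors by scalars -/
theorem act_diag {γ : WSpace d} {D : ℕ} (hD : 0 < D) {n : Let d → ℤ}
    (hn : ∀ l, (D : ℝ) * γ l = n l) {a : K} (ha : a ≠ 0) {χ : Shape P} (z : Ten d K χ) {s : ℝ}
    (hz : ∀ w, z w ≠ 0 → wgt γ (⟨χ, w⟩ : Words d) = s) :
    ∃ b : K, act (sh (fun c => Matrix.diagonal fun i => a ^ n ⟨c, i⟩) χ) z = b • z := by
  classical
  have hact : ∀ w, act (sh (fun c => Matrix.diagonal fun i => a ^ n ⟨c, i⟩) χ) z w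
      = a ^ (∑ t, n (lt w t)) * z w := by
    intro w
    rw [act_apply, sum_eq_single w]
    · congr 1
      have h1 : ∀ S : Finset (Fin χ.1), ∏ t ∈ S, a ^ n (lt w t) = a ^ (∑ t ∈ S, n (lt w t)) := by
        intro S
        induction S using Finset.induction_on with
        | empty => simp
        | insert x S hx ih => rw [prod_insert hx, sum_insert hx, zpow_add₀ ha, ih]
      rw [← h1]
      refine prod_congr rfl fun t _ => ?_
      exact Matrix.diagonal_apply_eq _ _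
    · intro w' _ hne
      obtain ⟨t, ht⟩ := Function.ne_iff.mp hne
      rw [prod_eq_zero (mem_univ t), zero_mul]
      exact Matrix.diagonal_apply_ne _ (Ne.symm ht)
    · intro h; exact absurd (mem_univ w) h
  by_cases h0 : ∃ w₀, z w₀ ≠ 0
  · obtain ⟨w₀, hw₀⟩ := h0
    refine ⟨a ^ (∑ t, n (lt w₀ t)), ?_⟩
    funext w
    rw [hact, Pi.smul_apply, smul_eq_mul]
    by_cases hw : z w = 0
    · rw [hw, mul_zero, mul_zero]
    · have key : ∀ w, z w ≠ 0 → ((∑ t, n (lt w t) : ℤ) : ℝ) = D * s := by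
        intro w hw
        rw [← hz w hw]
        unfold wgt
        rw [mul_sum]
        push_cast
        exact sum_congr rfl fun t _ => (hn _).symm
      have h1 : (∑ t, n (lt w t) : ℤ) = ∑ t, n (lt w₀ t) := by
        have := (key w hw).trans (key w₀ hw₀).symm
        exact_mod_cast this
      rw [h1]
  · push Not at h0
    refine ⟨0, ?_⟩
    funext w
    rw [hact, h0 w, mul_zero, Pi.smul_apply, smul_eq_mul, zero_mul]

theorem dt2_wgt_eq {h : Mats d K} {γ γ' : WSpace d}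
    (hom : ∀ c i b, h c i b ≠ 0 → γ' ⟨c, i⟩ = γ ⟨c, b⟩) {χ : Shape P} (w w' : Word d χ)
    (hw : ∏ t, sh h χ t (w t) (w' t) ≠ 0) :
    wgt γ' (⟨χ, w⟩ : Words d) = wgt γ (⟨χ, w'⟩ : Words d) := by
  unfold wgt
  refine sum_congr rfl fun t _ => ?_
  exact hom _ _ _ (prod_ne_zero_iff.1 hw t (mem_univ t))

/-- If `h c i b ≠ 0` implies `γ' ⟨c, i⟩ = γ ⟨c, b⟩`, then the action of `h` is compatible with the
decompositions in homogeneous parts. -/
theorem act_hpart {h : Mats d K} {γ γ' : WSpace d}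
    (hom : ∀ c i b, h c i b ≠ 0 → γ' ⟨c, i⟩ = γ ⟨c, b⟩) {χ : Shape P} (z : Ten d K χ)
    (w : Word d χ) : act (sh h χ) (hpart γ (wgt γ' ⟨χ, w⟩) z) w = act (sh h χ) z w := by
  classical
  rw [act_apply, act_apply]
  refine sum_congr rfl fun w' _ => ?_
  by_cases h1 : ∏ t, sh h χ t (w t) (w' t) = 0
  · rw [h1, zero_mul, zero_mul]
  · congr 1
    unfold hpart
    rw [if_pos (dt2_wgt_eq hom w w' h1).symm]

/-- (a nonzero term `w'` in the sum `act (sh h χ) (hpart γ s z) w` has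
`wgt γ' w = wgt γ w' = s`) -/
theorem wgt_of_act_hpart {h : Mats d K} {γ γ' : WSpace d}
    (hom : ∀ c i b, h c i b ≠ 0 → γ' ⟨c, i⟩ = γ ⟨c, b⟩) {χ : Shape P} (z : Ten d K χ) {s : ℝ}
    {w : Word d χ} (hw : act (sh h χ) (hpart γ s z) w ≠ 0) : wgt γ' ⟨χ, w⟩ = s := by
  classical
  rw [act_apply] at hw
  obtain ⟨w', _, hw'⟩ := exists_ne_zero_of_sum_ne_zero hw
  have h1 := left_ne_zero_of_mul hw'
  have h2 := right_ne_zero_of_mul hw'
  rw [dt2_wgt_eq hom w w' h1]
  by_contra hcon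
  apply h2
  unfold hpart
  rw [if_neg hcon]

end Pool.Agent.Helper11.Dt
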