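import Mathlib
import Pool.Agent.Helper11.Dt.Defs
import Pool.Agent.Helper11.Dr.R2
import Pool.Agent.Helper11.Dr.Row
import Pool.Agent.Helper11.Can.Basic

/-!
# DT-4: a common adapted basis (project DET, MP_5f0950_ag)
-/

open Finset Matrix

namespace Pool.Agent.Helper11.Dt

open Pool.Agent.Helper10.GIT Pool.Agent.Helper11.GIT Pool.Agent.Helper11.Can

variable {P : ℕ} {d : Fin P → ℕ} {κ : Type*} [Field κ] [IsAlgClosed κ] [CharZero κ]

/-- powers of two with different integer exponents are different in characteristic zero -/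
private lemma dt4_zpow_inj {κ : Type*} [Field κ] [CharZero κ] {m n : ℤ}
    (h : (2 : κ) ^ m = (2 : κ) ^ n) : m = n := by
  have h1 : (((2 : ℚ) ^ m : ℚ) : κ) = (((2 : ℚ) ^ n : ℚ) : κ) := by
    rw [Rat.cast_zpow, Rat.cast_zpow, Rat.cast_ofNat]
    exact h
  have h2 : (2 : ℚ) ^ m = (2 : ℚ) ^ n := Rat.cast_injective h1
  exact zpow_right_injective₀ (by norm_num) (by norm_num) h2

/-- generalised eigenvectors of a diagonal matrix -/
private lemma dt4_gen {κ : Type*} [Field κ] {m : ℕ} (t : Fin m → κ) {θ : κ} {x : Fin m → κ}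
    (hx : x ∈ Module.End.maxGenEigenspace (Matrix.mulVecLin (Matrix.diagonal t)) θ) {i : Fin m}
    (hi : x i ≠ 0) : t i = θ := by
  obtain ⟨n, hn⟩ := (Module.End.mem_maxGenEigenspace _ _ _).mp hx
  have h1 : ∀ (n : ℕ) (y : Fin m → κ), ((Matrix.mulVecLin (Matrix.diagonal t) -
      θ • 1 : Module.End κ (Fin m → κ)) ^ n) y i = (t i - θ) ^ n * y i := by
    intro n
    induction n with
    | zero => intro y; simp
    | succ n ih =>
      intro y
      rw [pow_succ, Module.End.mul_apply, ih, LinearMap.sub_apply, LinearMap.smul_apply,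
        Module.End.one_apply, Pi.sub_apply, Pi.smul_apply, Matrix.mulVecLin_apply,
        Matrix.mulVec_diagonal, smul_eq_mul]
      ring
  have h2 := congrFun hn i
  rw [h1, Pi.zero_apply] at h2
  rcases mul_eq_zero.mp h2 with h3 | h3
  · exact sub_eq_zero.mp (eq_zero_of_pow_eq_zero h3)
  · exact absurd h3 hi

/-- Bases adapted to a filtration given by weights `μ` which is stable under a diagonal matrix with
eigenvalues `2 ^ n l`, and to the filtration by the weights `γ = n / D`.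

Proof: as in the proof of `Dr.prod_psi_eq_one` (Dr/Core.lean), apply `Dr.exists_eigen_family` to
`T = mulVecLin (diagonal 2 ^ n)` and the filtration `flag h μ c`; this gives a basis `b c` of
`κ ^ (d c)`, weights `μ'` and eigenvalues `θ`. Each `b c j` is nonzero and (the matrix being
diagonal) its coordinates vanish at all `i` with `2 ^ n ⟨c, i⟩ ≠ θ c j`; choose an `i₀` with
`2 ^ n ⟨c, i₀⟩ = θ c j` and put `γ' ⟨c, j⟩ = γ ⟨c, i₀⟩`. Let `h' c` be the matrix of coordinates
with respect to `b c`. `Dr.row_mem` shows that the rows of `h'` are generalised eigenvectors of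
the same diagonal matrix, whence `hom`. The equality of the flags for `γ'` follows from this and
the same property of the inverse of `h'`, whose columns are the `b c j`. -/
theorem exists_common_basis {γ : WSpace d} {D : ℕ} (hD : 0 < D) {n : Let d → ℤ}
    (hn : ∀ l, (D : ℝ) * γ l = n l) {h : Mats d κ} (hh : ∀ c, (h c).det ≠ 0) {μ : WSpace d}
    (hstab : ∀ c a, ∀ x ∈ flag h μ c a,
      (Matrix.diagonal fun i => (2 : κ) ^ n ⟨c, i⟩).mulVec x ∈ flag h μ c a) :
    ∃ (h' : Mats d κ) (γ' μ' : WSpace d), (∀ c, (h' c).det ≠ 0) ∧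
      (∀ c i b, h' c i b ≠ 0 → γ' ⟨c, i⟩ = γ ⟨c, b⟩) ∧
      (∀ c a, flag h' γ' c a = flag 1 γ c a) ∧ (∀ c a, flag h' μ' c a = flag h μ c a) := by
  classical
  have hD' : (0 : ℝ) < D := by exact_mod_cast hD
  have hanti : ∀ c, Antitone fun a => flag h μ c a := fun c a a' haa' x hx b hb =>
    hx b (lt_of_lt_of_le hb haa')
  have htop : ∀ c, ∃ L, flag h μ c L = ⊤ := by
    intro c
    obtain ⟨L, hL⟩ := (Set.finite_range (fun s : (Σ c : Fin P, Fin (d c)) => μ s)).bddBelow
    refine ⟨L, ?_⟩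
    rw [eq_top_iff]
    intro x _ b hb
    exact absurd hb (not_lt.mpr (hL ⟨⟨c, b⟩, rfl⟩))
  have hbot : ∀ c, ∃ M, flag h μ c M = ⊥ := by
    intro c
    obtain ⟨L, hL⟩ := (Set.finite_range (fun s : (Σ c : Fin P, Fin (d c)) => μ s)).bddAbove
    refine ⟨L + 1, ?_⟩
    rw [eq_bot_iff]
    intro x hx
    rw [Submodule.mem_bot]
    have h1 : (h c).mulVec x = 0 := by
      funext b
      refine hx b ?_
      have h2 := hL ⟨⟨c, b⟩, rfl⟩
      linarith
    have h2 := congrArg ((h c)⁻¹).mulVec h1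
    rwa [Matrix.mulVec_mulVec, Matrix.nonsing_inv_mul _ (isUnit_iff_ne_zero.mpr (hh c)),
      Matrix.one_mulVec, Matrix.mulVec_zero] at h2
  have hcont : ∀ c a x, (∀ a' < a, x ∈ flag h μ c a') → x ∈ flag h μ c a := by
    intro c a x hx b hb
    obtain ⟨a', h1, h2⟩ := exists_between hb
    exact hx a' h2 b h1
  have hfr : ∀ c : Fin P, Module.finrank κ (Fin (d c) → κ) = d c := fun c => by simp
  choose b γ₀ θ₀ hb hbγ hbF using fun c => Pool.Agent.Helper11.Dr.exists_eigen_family
    (Matrix.mulVecLin (Matrix.diagonal fun i => (2 : κ) ^ n ⟨c, i⟩))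
    (fun a => flag h μ c a) (hanti c) (hbot c) (htop c) (hcont c) (hstab c) (hfr c)
  have hex : ∀ c j, ∃ i, (2 : κ) ^ n ⟨c, i⟩ = θ₀ c j := by
    intro c j
    obtain ⟨i, hi⟩ := Function.ne_iff.mp ((b c).ne_zero j)
    exact ⟨i, dt4_gen _ (hb c j) hi⟩
  choose i₀ hi₀ using hex
  have hγn : ∀ c i i', n ⟨c, i⟩ = n ⟨c, i'⟩ → γ ⟨c, i⟩ = γ ⟨c, i'⟩ := by
    intro c i i' hii
    have h1 := hn ⟨c, i⟩
    rw [hii, ← hn] at h1
    exact mul_left_cancel₀ hD'.ne' h1
  have hsame : ∀ c j i, (2 : κ) ^ n ⟨c, i⟩ = θ₀ c j → γ ⟨c, i₀ c j⟩ = γ ⟨c, i⟩ := by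
    intro c j i hi
    refine hγn c _ _ (dt4_zpow_inj (κ := κ) ?_)
    rw [hi₀, hi]
  let h' : Mats d κ := fun c =>
    LinearMap.toMatrix' ((b c).equivFun : (Fin (d c) → κ) →ₗ[κ] (Fin (d c) → κ))
  have hh'v : ∀ c x i, (h' c).mulVec x i = (b c).repr x i := by
    intro c x i
    rw [LinearMap.toMatrix'_mulVec]
    rfl
  have hh' : ∀ c, (h' c).det ≠ 0 := by
    intro c
    rw [LinearMap.det_toMatrix']
    exact (LinearEquiv.isUnit_det' (b c).equivFun).ne_zero
  let γ' : WSpace d := WithLp.toLp 2 fun l => γ ⟨l.1, i₀ l.1 l.2⟩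
  have hγ' : ∀ c i, γ' ⟨c, i⟩ = γ ⟨c, i₀ c i⟩ := fun c i => rfl
  let μ' : WSpace d := WithLp.toLp 2 fun l => γ₀ l.1 l.2
  have hμ' : ∀ c i, μ' ⟨c, i⟩ = γ₀ c i := fun c i => rfl
  have hom : ∀ c i b', h' c i b' ≠ 0 → γ' ⟨c, i⟩ = γ ⟨c, b'⟩ := by
    intro c i b' hne
    have h1 := Pool.Agent.Helper11.Dr.row_mem (b c)
      (Matrix.diagonal fun i => (2 : κ) ^ n ⟨c, i⟩) (θ₀ c) (hb c) (h' c) (hh'v c) i
    rw [Matrix.diagonal_transpose] at h1
    have h2 := dt4_gen (fun i => (2 : κ) ^ n ⟨c, i⟩) h1 hne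
    rw [hγ']
    exact hsame c i b' h2
  refine ⟨h', γ', μ', hh', hom, ?_, ?_⟩
  · intro c a
    ext x
    rw [mem_flag, mem_flag]
    constructor
    · intro hx b' hb'
      have h1 : ((1 : Mats d κ) c).mulVec x b' = x b' := by
        rw [Pi.one_apply, Matrix.one_mulVec]
      rw [h1]
      have h2 := congrFun ((b c).sum_repr x) b'
      rw [← h2, Finset.sum_apply]
      refine Finset.sum_eq_zero fun i _ => ?_
      rw [Pi.smul_apply, smul_eq_mul]
      by_cases h3 : b c i b' = 0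
      · rw [h3, mul_zero]
      · have h4 := dt4_gen _ (hb c i) h3
        have h5 := hsame c i b' h4
        have h6 := hx i (by rw [hγ', h5]; exact hb')
        rw [hh'v] at h6
        rw [h6, zero_mul]
    · intro hx i hi
      have h1 : (h' c).mulVec x i = ∑ b', h' c i b' * x b' := rfl
      rw [h1]
      refine Finset.sum_eq_zero fun b' _ => ?_
      by_cases h2 : h' c i b' = 0
      · rw [h2, zero_mul]
      · have h3 := hom c i b' h2
        have h4 := hx b' (by rw [← h3]; exact hi)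
        rw [Pi.one_apply, Matrix.one_mulVec] at h4
        rw [h4, mul_zero]
  · intro c a
    ext x
    rw [hbF c a, (b c).mem_span_image, mem_flag]
    simp only [hh'v, hμ']
    constructor
    · intro h i hi
      by_contra hlt
      exact (Finsupp.mem_support_iff.mp hi) (h i (not_le.mp hlt))
    · intro h i hi
      by_contra hne
      exact absurd (h (Finsupp.mem_support_iff.mpr hne)) (not_le.mpr hi)

end Pool.Agent.Helper11.Dt
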