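import Mathlib
import Pool.Agent.Helper11.Dt.Defs
import Pool.Agent.Helper11.Dr.Orth

/-!
# DT-5: perturbation of optimal weights (project DET, MP_5f0950_ag)
-/

open Finset

namespace Pool.Agent.Helper11.Dt

open Pool.Agent.Helper10.GIT Pool.Agent.Helper11.GIT Pool.Agent.Helper11.Can

variable {P : ℕ} {d : Fin P → ℕ} {κ : Type*} [Field κ]

open Filter Topology in
private lemma dt5_ev (a b c : ℝ) (hc : c ≤ a) (h : a = c → 0 ≤ b) :
    ∀ᶠ ε in 𝓝[>] (0 : ℝ), c ≤ a + ε * b := by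
  rcases hc.eq_or_lt with h1 | h1
  · filter_upwards [self_mem_nhdsWithin] with ε hε
    have h2 := h h1.symm
    have h3 : 0 < ε := hε
    have h4 : 0 ≤ ε * b := by positivity
    linarith
  · have hcont : Continuous fun ε : ℝ => a + ε * b := by fun_prop
    have h2 : Tendsto (fun ε : ℝ => a + ε * b) (𝓝 0) (𝓝 (a + 0 * b)) := hcont.tendsto 0
    rw [zero_mul, add_zero] at h2
    have h3 := h2.eventually_const_lt h1
    have h4 : ∀ᶠ ε in 𝓝[>] (0 : ℝ), c < a + ε * b := nhdsWithin_le_nhds h3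
    exact h4.mono fun ε hε => le_of_lt hε

open Filter Topology in
private lemma dt5_lim {s q : ℝ} (h : ∀ᶠ ε in 𝓝[>] (0 : ℝ), 0 ≤ 2 * ε * s + ε ^ 2 * q) : 0 ≤ s := by
  have h1 : ∀ᶠ ε in 𝓝[>] (0 : ℝ), 0 ≤ 2 * s + ε * q := by
    filter_upwards [h, self_mem_nhdsWithin] with ε h2 hε
    have h3 : 0 < ε := hε
    have h4 : 0 ≤ ε * (2 * s + ε * q) := by
      have h5 : ε * (2 * s + ε * q) = 2 * ε * s + ε ^ 2 * q := by ring
      rw [h5]
      exact h2
    exact nonneg_of_mul_nonneg_right h4 h3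
  have hcont : Continuous fun ε : ℝ => 2 * s + ε * q := by fun_prop
  have h2 : Tendsto (fun ε : ℝ => 2 * s + ε * q) (𝓝 0) (𝓝 (2 * s + 0 * q)) := hcont.tendsto 0
  rw [zero_mul, add_zero] at h2
  have h3 := ge_of_tendsto (h2.mono_left nhdsWithin_le_nhds) h1
  linarith

/-- If the weights `μ` are nonnegative on the words on which the optimal weights `γ` are as small
as possible, then `γ + ε μ` is adapted for small `ε > 0`, and therefore the scalar product of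
`γ` and `μ` is nonnegative.

Proof: `suppW h A` is finite (`finite_words`, `suppW_le`), so there is `ε₀ > 0` such that
`γ + ε • μ` is adapted for `0 < ε ≤ ε₀` (`Dr.wgt_add_smul`); then
`‖γ‖ ^ 2 ≤ ‖γ + ε • μ‖ ^ 2 = ‖γ‖ ^ 2 + 2 ε ∑ γ μ + ε ^ 2 ∑ μ ^ 2` (see
`Dr.inner_zero_of_norm_le`); let `ε` tend to zero. -/
theorem inner_nonneg_of_limit {A N : Family d κ} (hNA : ∀ χ, N χ ⊆ A χ) {n : ℕ}
    (hn : ∀ χ, n < χ.1 → A χ = ∅) {h : Mats d κ} {γ μ : WSpace d} (ha : Adapted A N h γ)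
    (ho : ∀ γ' : WSpace d, Adapted A N h γ' → ‖γ‖ ≤ ‖γ'‖) (hμ : ∀ c, ∑ b, μ ⟨c, b⟩ = 0)
    (h0 : ∀ w ∈ suppW h A, wgt γ w = 0 → 0 ≤ wgt μ w)
    (h1 : ∀ w ∈ suppW h N, wgt γ w = 1 → 0 ≤ wgt μ w) : 0 ≤ ∑ l, γ l * μ l := by
  have hfin : (suppW h A).Finite := (finite_words n).subset (suppW_le hn h)
  have hfinN : (suppW h N).Finite := hfin.subset (suppW_mono hNA h)
  have e1 := (Filter.eventually_all_finite hfin).2 fun w hw =>
    dt5_ev (wgt γ w) (wgt μ w) 0 (ha.nonneg w hw) (h0 w hw)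
  have e2 := (Filter.eventually_all_finite hfinN).2 fun w hw =>
    dt5_ev (wgt γ w) (wgt μ w) 1 (ha.one_le w hw) (h1 w hw)
  apply dt5_lim (q := ∑ l, μ l ^ 2)
  filter_upwards [e1, e2] with ε h2 h3
  have had : Adapted A N h (γ + ε • μ) := by
    refine ⟨ha.det, fun c => ?_, fun w hw => ?_, fun w hw => ?_⟩
    · have h4 : ∀ b, (γ + ε • μ) ⟨c, b⟩ = γ ⟨c, b⟩ + ε * μ ⟨c, b⟩ := fun b => rfl
      simp only [h4]
      rw [sum_add_distrib, ← mul_sum, hμ, ha.sum, mul_zero, add_zero]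
    · rw [Dr.wgt_add_smul]
      exact h2 w hw
    · rw [Dr.wgt_add_smul]
      exact h3 w hw
  have h4 := pow_le_pow_left₀ (norm_nonneg _) (ho _ had) 2
  rw [EuclideanSpace.real_norm_sq_eq, EuclideanSpace.real_norm_sq_eq] at h4
  have h5 : ∑ l, (γ + ε • μ) l ^ 2 =
      ∑ l, γ l ^ 2 + (2 * ε * (∑ l, γ l * μ l) + ε ^ 2 * ∑ l, μ l ^ 2) := by
    rw [mul_sum, mul_sum, ← sum_add_distrib, ← sum_add_distrib]
    refine sum_congr rfl fun l _ => ?_
    have h6 : (γ + ε • μ) l = γ l + ε * μ l := rfl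
    rw [h6]
    ring
  rw [h5] at h4
  linarith

end Pool.Agent.Helper11.Dt
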