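import Mathlib
import Pool.Agent.Helper11.Dt.Defs

/-!
# DT-7: the support of a product of block determinants (project DET, MP_5f0950_ag)
-/

open Finset Matrix

namespace Pool.Agent.Helper11.Dt

open Pool.Agent.Helper10.GIT Pool.Agent.Helper11.GIT Pool.Agent.Helper11.Can

variable {P : ℕ} {d : Fin P → ℕ} {κ : Type*} [Field κ]

/-- the value of `act h (bdet L)` at a word -/
private lemma dt7_act {X : Type} [Fintype X] [DecidableEq X] (cl : X → Fin P) {len : X → ℕ}
    {N : ℕ} (e : (Σ x : X, Fin (len x)) ≃ Fin N) (h : Mats d κ)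
    (L : ∀ x, Fin (len x) → Fin (d (cl x))) (p : ∀ q : (Σ x : X, Fin (len x)), Fin (d (cl q.1))) :
    act (sh h (bshape cl e)) (bdet cl e L) (bword d cl e p) =
      ∏ x, Matrix.det (Matrix.of fun s s' => h (cl x) (p ⟨x, s⟩) (L x s')) := by
  classical
  rw [act_bword]
  have h1 : ∀ x : X, Matrix.det (Matrix.of fun s s' => h (cl x) (p ⟨x, s⟩) (L x s')) =
      ∑ f : (Fin (len x) → Fin (d (cl x))), (∏ s, h (cl x) (p ⟨x, s⟩) (f s)) *
        Matrix.det (Matrix.of fun s s' => if f s = L x s' then (1 : κ) else 0) := by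
    intro x
    have h2 : ∀ f : (Fin (len x) → Fin (d (cl x))),
        (∏ s, h (cl x) (p ⟨x, s⟩) (f s)) *
          Matrix.det (Matrix.of fun s s' => if f s = L x s' then (1 : κ) else 0) =
        ∑ σ : Equiv.Perm (Fin (len x)), ((Equiv.Perm.sign σ : ℤ) : κ) *
          ∏ s, (h (cl x) (p ⟨x, s⟩) (f s) * if f s = L x (σ s) then (1 : κ) else 0) := by
      intro f
      rw [← Matrix.det_transpose, Matrix.det_apply', mul_sum]
      refine sum_congr rfl fun σ _ => ?_
      rw [prod_mul_distrib]
      simp only [Matrix.transpose_apply, Matrix.of_apply]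
      ring
    rw [sum_congr rfl fun f _ => h2 f, sum_comm, ← Matrix.det_transpose, Matrix.det_apply']
    refine sum_congr rfl fun σ _ => ?_
    rw [← mul_sum]
    congr 1
    have h3 : ∏ s, ∑ b : Fin (d (cl x)), (h (cl x) (p ⟨x, s⟩) b *
          if b = L x (σ s) then (1 : κ) else 0) =
        ∑ f : (Fin (len x) → Fin (d (cl x))),
          ∏ s, (h (cl x) (p ⟨x, s⟩) (f s) * if f s = L x (σ s) then (1 : κ) else 0) := by
      rw [prod_univ_sum, Fintype.piFinset_univ]
    rw [← h3]
    refine prod_congr rfl fun s _ => ?_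
    simp
  rw [prod_congr rfl fun x _ => h1 x, prod_univ_sum, Fintype.piFinset_univ]
  rw [← Equiv.sum_comp (Equiv.piCurry fun (x : X) (_ : Fin (len x)) => Fin (d (cl x))).symm]
  refine sum_congr rfl fun F _ => ?_
  rw [bdet_bword, prod_mul_distrib, Fintype.prod_sigma]
  rfl

/-- Let the matrices `h` be invertible and homogeneous, and let `L x` enumerate the letters of
class `cl x` and weight `γ ≤ - t x`. Some word `p` is in the support of `act h (bdet L)`, and (then)
the `x`-th block of `p` consists of the letters of weight `γ' ≤ - t x`, each of them once.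

Proof: `bdet L ≠ 0` (value `1` at `p = L`), and `act` of an invertible matrix is injective
(`act_mul`, `act_one`), whence `p`. By `act_bword` and `bdet_bword`,
`act h (bdet L) (bword p) = ∏ x, det (fun s s' => h (p ⟨x, s⟩) (L x s'))` (expand the determinant
and interchange sum and product; `Finset.prod_univ_sum` and `Equiv.piCurry`). So the rows of these
matrices are pairwise distinct and nonzero: `p ⟨x, ·⟩` is injective, and `h (p ⟨x, s⟩) (L x s') ≠ 0`
for some `s'`, so that `γ' (p ⟨x, s⟩) = γ (L x s') ≤ - t x`. The number of letters with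
`γ' ≤ - t x` is the number of those with `γ ≤ - t x`, which is `len x`: as `det (h c) ≠ 0`, there is
a permutation `π` with `h c (π b) b ≠ 0` for all `b` (`exists_perm` in Pool.Agent.Helper85.CAN.L10
or `Matrix.det_apply`), and then `γ' (π b) = γ b`. -/
theorem exists_bdet_word {X : Type} [Fintype X] [DecidableEq X] (cl : X → Fin P) {len : X → ℕ}
    {N : ℕ} (e : (Σ x : X, Fin (len x)) ≃ Fin N) {h : Mats d κ} (hh : ∀ c, (h c).det ≠ 0)
    {γ γ' : WSpace d} (hom : ∀ c i b, h c i b ≠ 0 → γ' ⟨c, i⟩ = γ ⟨c, b⟩) (t : X → ℝ)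
    (L : ∀ x, Fin (len x) → Fin (d (cl x))) (hL : ∀ x, Function.Injective (L x))
    (hLt : ∀ x b, b ∈ Set.range (L x) ↔ γ ⟨cl x, b⟩ ≤ - t x) :
    ∃ p : ∀ q : (Σ x : X, Fin (len x)), Fin (d (cl q.1)),
      act (sh h (bshape cl e)) (bdet cl e L) (bword d cl e p) ≠ 0 ∧
      ∀ ν : WSpace d, ∑ q, ν ⟨cl q.1, p q⟩ =
        ∑ x, ∑ j : Fin (d (cl x)) with γ' ⟨cl x, j⟩ ≤ - t x, ν ⟨cl x, j⟩ := by
  classical
  -- a word in the support
  have hne : ∃ w, act (sh h (bshape cl e)) (bdet (R := κ) cl e L) w ≠ 0 := by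
    by_contra hc
    push Not at hc
    have h0 : act (sh h (bshape cl e)) (bdet (R := κ) cl e L) = 0 := funext hc
    have h1 : act (sh (fun c => (h c)⁻¹) (bshape cl e))
        (act (sh h (bshape cl e)) (bdet (R := κ) cl e L)) = bdet cl e L := by
      rw [← act_mul]
      have h2 : sh (fun c => (h c)⁻¹) (bshape cl e) * sh h (bshape cl e) = 1 := by
        funext i
        exact Matrix.nonsing_inv_mul _ (isUnit_iff_ne_zero.mpr (hh _))
      rw [h2, act_one]
    rw [h0, map_zero] at h1
    have h3 : bdet (R := κ) cl e L (bword d cl e fun q => L q.1 q.2) = 1 := by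
      rw [bdet_bword]
      refine prod_eq_one fun x _ => ?_
      have h4 : (Matrix.of fun s s' => if L x s = L x s' then (1 : κ) else 0) = 1 := by
        ext s s'
        rw [Matrix.of_apply, Matrix.one_apply]
        simp only [(hL x).eq_iff]
      rw [h4, Matrix.det_one]
    rw [← h1] at h3
    exact zero_ne_one h3
  obtain ⟨w, hw⟩ := hne
  obtain ⟨p, rfl⟩ := (bword d cl e).surjective w
  refine ⟨p, hw, fun ν => ?_⟩
  rw [dt7_act] at hw
  have hdet : ∀ x, Matrix.det (Matrix.of fun s s' => h (cl x) (p ⟨x, s⟩) (L x s')) ≠ 0 :=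
    fun x hx => hw (prod_eq_zero (mem_univ x) hx)
  rw [Fintype.sum_sigma]
  refine sum_congr rfl fun x _ => ?_
  let pf : Fin (len x) → Fin (d (cl x)) := fun s => p ⟨x, s⟩
  have hinj : Function.Injective pf := by
    intro s s' hss
    by_contra hne
    apply hdet x
    refine Matrix.det_zero_of_row_eq hne ?_
    funext b
    have h5 : p ⟨x, s⟩ = p ⟨x, s'⟩ := hss
    simp only [Matrix.of_apply, h5]
  have hle : ∀ s : Fin (len x), γ' ⟨cl x, p ⟨x, s⟩⟩ ≤ - t x := by
    intro s
    by_contra hc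
    apply hdet x
    refine Matrix.det_eq_zero_of_row_eq_zero s fun s' => ?_
    rw [Matrix.of_apply]
    by_contra hs
    apply hc
    rw [hom _ _ _ hs]
    exact (hLt x _).mp ⟨s', rfl⟩
  obtain ⟨π, hπ⟩ : ∃ π : Equiv.Perm (Fin (d (cl x))), ∀ b, h (cl x) (π b) b ≠ 0 := by
    have hk := hh (cl x)
    rw [Matrix.det_apply] at hk
    obtain ⟨π, -, hπ⟩ := exists_ne_zero_of_sum_ne_zero hk
    refine ⟨π, fun b hb => hπ ?_⟩
    have h0 : ∏ i, h (cl x) (π i) i = 0 :=
      prod_eq_zero (f := fun i => h (cl x) (π i) i) (mem_univ b) hb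
    rw [h0, smul_zero]
  have hcard : #{j : Fin (d (cl x)) | γ' ⟨cl x, j⟩ ≤ - t x} = len x := by
    have h5 : ({j : Fin (d (cl x)) | γ' ⟨cl x, j⟩ ≤ - t x} : Finset (Fin (d (cl x)))) =
        (univ.image (L x)).image π := by
      ext j
      simp only [mem_filter, mem_univ, true_and, mem_image]
      constructor
      · intro hj
        have h6 : γ ⟨cl x, π.symm j⟩ ≤ - t x := by
          rw [← hom _ _ _ (hπ (π.symm j)), Equiv.apply_symm_apply]
          exact hj
        obtain ⟨s, hs⟩ := (hLt x _).mpr h6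
        exact ⟨π.symm j, ⟨s, hs⟩, Equiv.apply_symm_apply _ _⟩
      · rintro ⟨b, ⟨s, rfl⟩, rfl⟩
        rw [hom _ _ _ (hπ (L x s))]
        exact (hLt x _).mp ⟨s, rfl⟩
    rw [h5, card_image_of_injective _ π.injective, card_image_of_injective _ (hL x),
      card_univ, Fintype.card_fin]
  have himg : univ.image pf =
      ({j : Fin (d (cl x)) | γ' ⟨cl x, j⟩ ≤ - t x} : Finset (Fin (d (cl x)))) := by
    apply eq_of_subset_of_card_le
    · intro j hj
      rw [mem_image] at hj
      obtain ⟨s, -, rfl⟩ := hj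
      rw [mem_filter]
      exact ⟨mem_univ _, hle s⟩
    · rw [hcard, card_image_of_injective _ hinj, card_univ, Fintype.card_fin]
  rw [← himg, sum_image fun s _ s' _ hss => hinj hss]

end Pool.Agent.Helper11.Dt
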