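import Mathlib
import Pool.Agent.Helper11.Dt.Defs
import Pool.Agent.Helper11.Dr.R5

/-!
# DT-8: summation over the blocks (project DET, MP_5f0950_ag)
-/

open Finset

namespace Pool.Agent.Helper11.Dt

open Pool.Agent.Helper10.GIT Pool.Agent.Helper11.GIT Pool.Agent.Helper11.Can

variable {P : ℕ} {d : Fin P → ℕ}

/-- the number of `i < M` with `n ≤ - (i + 1)` -/
private theorem dt8_count (n : ℤ) (M : ℕ) (h : |n| ≤ M) :
    ∑ i : Fin M, (if n ≤ -((((i : ℕ) : ℤ)) + 1) then (1 : ℝ) else 0) = max 0 (-(n : ℝ)) := by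
  rw [abs_le] at h
  rw [Fin.sum_univ_eq_sum_range (fun i : ℕ => if n ≤ -(((i : ℤ)) + 1) then (1 : ℝ) else 0) M,
    ← sum_filter]
  have hf : (range M).filter (fun i : ℕ => n ≤ -((i : ℤ) + 1)) = range (-n).toNat := by
    ext i
    simp only [mem_filter, mem_range]
    omega
  rw [hf, sum_const, card_range, nsmul_eq_mul, mul_one]
  have h1 : (((-n).toNat : ℤ) : ℝ) = ((max (-n) 0 : ℤ) : ℝ) := by rw [Int.toNat_eq_max]
  rw [Int.cast_natCast] at h1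
  rw [h1, max_comm]
  push_cast
  rfl

/-- The sum, over all classes `c` and `0 ≤ i < M`, of the weights `μ` of the letters of class `c`
with `γ ≤ - (i + 1) / D`, is `- D / 2` times the scalar product of `γ` and `μ`.

Proof: a letter `l` occurs `max 0 (- D γ l)` times on the left; by the permutations `π`,
`∑ max 0 (- D γ l) μ l = - ∑ max 0 (D γ l) μ l`; add up. (See `Dr.sum_mul_eq` in Dr/R5.lean for
rational `x`; the proof works for real `x`.) -/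
theorem sum_blocks {γ μ : WSpace d} {D M : ℕ} (hD : 0 < D)
    (hint : ∀ l, ∃ n : ℤ, (D : ℝ) * γ l = n) (hM : ∀ l, |(D : ℝ) * γ l| ≤ M)
    (hπ : ∀ c, ∃ π : Equiv.Perm (Fin (d c)), ∀ b,
      γ ⟨c, π b⟩ = - γ ⟨c, b⟩ ∧ μ ⟨c, π b⟩ = - μ ⟨c, b⟩) :
    ∑ x : Fin P × Fin M, ∑ j : Fin (d x.1) with γ ⟨x.1, j⟩ ≤ -((((x.2 : ℕ) + 1 : ℕ) : ℝ) / D),
      μ ⟨x.1, j⟩ = -(D / 2 : ℝ) * ∑ l, γ l * μ l := by
  classical
  have hD0 : (0 : ℝ) < D := by exact_mod_cast hD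
  choose n hn using hint
  have hnM : ∀ l, |n l| ≤ M := by
    intro l
    have h1 := hM l
    rw [hn l] at h1
    exact_mod_cast h1
  rw [Fintype.sum_prod_type, Fintype.sum_sigma, mul_sum]
  refine sum_congr rfl fun c _ => ?_
  simp only
  have hcond : ∀ (i : Fin M) (j : Fin (d c)),
      γ ⟨c, j⟩ ≤ -((((i : ℕ) + 1 : ℕ) : ℝ) / D) ↔ n ⟨c, j⟩ ≤ -((((i : ℕ) : ℤ)) + 1) := by
    intro i j
    have h1 : γ ⟨c, j⟩ = (n ⟨c, j⟩ : ℝ) / D := by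
      rw [eq_div_iff hD0.ne', mul_comm]
      exact hn ⟨c, j⟩
    rw [h1, ← neg_div, div_le_div_iff_of_pos_right hD0]
    constructor
    · intro h
      have h2 : (n ⟨c, j⟩ : ℝ) ≤ ((-((((i : ℕ) : ℤ)) + 1) : ℤ) : ℝ) := by
        push_cast
        push_cast at h
        exact h
      exact_mod_cast h2
    · intro h
      have h2 : (n ⟨c, j⟩ : ℝ) ≤ ((-((((i : ℕ) : ℤ)) + 1) : ℤ) : ℝ) := by exact_mod_cast h
      push_cast at h2
      push_cast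
      exact h2
  have hL : ∑ i : Fin M, ∑ j : Fin (d c) with γ ⟨c, j⟩ ≤ -((((i : ℕ) + 1 : ℕ) : ℝ) / D),
      μ ⟨c, j⟩ = ∑ j : Fin (d c), max 0 (-(n ⟨c, j⟩ : ℝ)) * μ ⟨c, j⟩ := by
    have h1 : ∀ i : Fin M, ∑ j : Fin (d c) with γ ⟨c, j⟩ ≤ -((((i : ℕ) + 1 : ℕ) : ℝ) / D),
        μ ⟨c, j⟩ = ∑ j : Fin (d c),
          (if n ⟨c, j⟩ ≤ -((((i : ℕ) : ℤ)) + 1) then (1 : ℝ) else 0) * μ ⟨c, j⟩ := by
      intro i
      rw [sum_filter]
      refine sum_congr rfl fun j _ => ?_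
      by_cases h : n ⟨c, j⟩ ≤ -((((i : ℕ) : ℤ)) + 1)
      · rw [if_pos ((hcond i j).2 h), if_pos h, one_mul]
      · rw [if_neg (fun h' => h ((hcond i j).1 h')), if_neg h, zero_mul]
    rw [sum_congr rfl fun i _ => h1 i, sum_comm]
    refine sum_congr rfl fun j _ => ?_
    rw [← sum_mul, dt8_count _ M (hnM _)]
  rw [hL]
  obtain ⟨π, hπ⟩ := hπ c
  have hnπ : ∀ b, n ⟨c, π b⟩ = - n ⟨c, b⟩ := by
    intro b
    have h1 := hn ⟨c, π b⟩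
    rw [(hπ b).1, mul_neg, hn ⟨c, b⟩] at h1
    have h2 : (n ⟨c, π b⟩ : ℝ) = ((- n ⟨c, b⟩ : ℤ) : ℝ) := by
      push_cast
      exact h1.symm
    exact_mod_cast h2
  have hflip : ∑ j : Fin (d c), max 0 (-(n ⟨c, j⟩ : ℝ)) * μ ⟨c, j⟩
      = - ∑ j : Fin (d c), max 0 (n ⟨c, j⟩ : ℝ) * μ ⟨c, j⟩ := by
    rw [← Equiv.sum_comp π, ← sum_neg_distrib]
    refine sum_congr rfl fun j _ => ?_
    rw [hnπ j, (hπ j).2]
    push_cast
    rw [neg_neg, mul_neg]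
  have hdiff : ∑ j : Fin (d c), max 0 (-(n ⟨c, j⟩ : ℝ)) * μ ⟨c, j⟩
      - ∑ j : Fin (d c), max 0 (n ⟨c, j⟩ : ℝ) * μ ⟨c, j⟩
      = - ((D : ℝ) * ∑ j : Fin (d c), γ ⟨c, j⟩ * μ ⟨c, j⟩) := by
    rw [← sum_sub_distrib, mul_sum, ← sum_neg_distrib]
    refine sum_congr rfl fun j _ => ?_
    have h1 : (D : ℝ) * (γ ⟨c, j⟩ * μ ⟨c, j⟩) = (n ⟨c, j⟩ : ℝ) * μ ⟨c, j⟩ := by
      rw [← mul_assoc, hn]
    rw [h1]
    rcases le_total 0 (n ⟨c, j⟩ : ℝ) with h | h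
    · rw [max_eq_left (by linarith), max_eq_right h]
      ring
    · rw [max_eq_right (by linarith), max_eq_left h]
      ring
  linarith

end Pool.Agent.Helper11.Dt
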